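import Pool.Agent.Lib.MP_90732c_al.Cx.Interfaces
import Pool.Agent.Lib.MP_90732c_al.Ab.LAB

/-! Groups of bounded exponent have cost one: the first marginal and the law of one class
label. -/

set_option autoImplicit false

open MeasureTheory
open scoped ENNReal Pointwise

namespace Pool.Agent.Lib.MP_90732c_al.Cx

open Pool.Agent.Lib.MP_90732c_al.Ab

variable {G : Type} [Group G] {Y : Type}

/-- The map which produces the class labels. -/
def theta (rep : Y → G → G) (p : Y × Lab G) : Y × Lab G := (p.1, fun h => p.2 (rep p.1 h⁻¹))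

omit [Group G] in
lemma measurable_theta_apply [Countable G] [MeasurableSpace Y] {rep : Y → G → G}
    (hrep : ∀ x g, MeasurableSet {y | rep y x = g}) (x : G) :
    Measurable fun p : Y × Lab G => p.2 (rep p.1 x) := by
  intro B hB
  have h1 : (fun p : Y × Lab G => p.2 (rep p.1 x)) ⁻¹' B =
      ⋃ g : G, ((Prod.fst : Y × Lab G → Y) ⁻¹' {y | rep y x = g}) ∩
        ((fun p : Y × Lab G => p.2 g) ⁻¹' B) := by
    ext p
    simp only [Set.mem_preimage, Set.mem_iUnion, Set.mem_inter_iff, Set.mem_ofPred_eq]
    constructor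
    · intro h
      exact ⟨rep p.1 x, rfl, h⟩
    · rintro ⟨g, rfl, h⟩
      exact h
  rw [h1]
  refine MeasurableSet.iUnion fun g => (measurable_fst (hrep x g)).inter ?_
  exact ((measurable_pi_apply g).comp measurable_snd) hB

lemma measurable_theta [Countable G] [MeasurableSpace Y] {rep : Y → G → G}
    (hrep : ∀ x g, MeasurableSet {y | rep y x = g}) : Measurable (theta (Y := Y) rep) := by
  refine measurable_fst.prodMk ?_
  exact measurable_pi_iff.2 fun h => measurable_theta_apply hrep h⁻¹

/-- Fubini for events about the labels. -/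
lemma IsClab.apply [Countable G] [MeasurableSpace Y] [MulAction G Y] {ν : Measure Y}
    [IsProbabilityMeasure ν] {S : Y → G → Prop} {ν' : Measure (Y × Lab G)}
    {ℓ : Y × Lab G → ℝ} {rep : Y → G → G} (h : IsClab ν S ν' ℓ rep) {A : Set (Y × Lab G)}
    (hA : MeasurableSet A) :
    ν' A = ∫⁻ y, lam G {u : Lab G | theta rep (y, u) ∈ A} ∂ν := by
  have h1 : ν' = (ν.prod (lam G)).map (theta rep) := h.eq_map
  rw [h1, Measure.map_apply (measurable_theta h.meas_rep) hA,
    Measure.prod_apply (measurable_theta h.meas_rep hA)]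
  rfl

/-- The label of a point is almost surely a coordinate. -/
lemma IsClab.lab_one [Countable G] [MeasurableSpace Y] [MulAction G Y] {ν : Measure Y}
    {S : Y → G → Prop} {ν' : Measure (Y × Lab G)}
    {ℓ : Y × Lab G → ℝ} {rep : Y → G → G} (h : IsClab ν S ν' ℓ rep) :
    ∀ᵐ z ∂ν', ℓ z = z.2 1 := by
  filter_upwards [h.lab] with z hz
  have := hz 1
  rwa [one_smul, inv_one] at this

theorem clfst : ClfstStatement := by
  intro G _ _ Y _ _ ν _ S ν' ℓ rep h
  refine ⟨?_, ?_, ?_⟩
  · have h1 : ν' = (ν.prod (lam G)).map (theta rep) := h.eq_map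
    rw [h1]
    exact Measure.isProbabilityMeasure_map (measurable_theta h.meas_rep).aemeasurable
  · intro E hE
    rw [h.apply (show MeasurableSet {z : Y × Lab G | z.1 ∈ E} from measurable_fst hE)]
    have : ∀ y, lam G {u : Lab G | theta rep (y, u) ∈ {z : Y × Lab G | z.1 ∈ E}} =
        E.indicator 1 y := by
      intro y
      by_cases hy : y ∈ E
      · have h2 : {u : Lab G | theta rep (y, u) ∈ {z : Y × Lab G | z.1 ∈ E}} = Set.univ := by
          ext u
          simp [theta, hy]
        rw [h2, measure_univ, Set.indicator_of_mem hy, Pi.one_apply]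
      · have h2 : {u : Lab G | theta rep (y, u) ∈ {z : Y × Lab G | z.1 ∈ E}} = ∅ := by
          ext u
          simp [theta, hy]
        rw [h2, measure_empty, Set.indicator_of_notMem hy]
    have h3 : (fun y => lam G {u : Lab G | theta rep (y, u) ∈ {z : Y × Lab G | z.1 ∈ E}}) =
        E.indicator 1 := funext this
    calc ∫⁻ y, lam G {u : Lab G | theta rep (y, u) ∈ {z : Y × Lab G | z.1 ∈ E}} ∂ν
        = ∫⁻ y, E.indicator 1 y ∂ν := by rw [h3]
      _ = ν E := lintegral_indicator_one hE
  · intro a h0 h1
    have h2 : ν' {z | ℓ z < a} = ν' {z | z.2 1 < a} := by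
      apply measure_congr
      filter_upwards [h.lab_one] with z hz
      apply propext
      change ℓ z < a ↔ z.2 1 < a
      rw [hz]
    have hm : MeasurableSet {z : Y × Lab G | z.2 1 < a} :=
      measurableSet_lt ((measurable_pi_apply (1 : G)).comp measurable_snd) measurable_const
    rw [h2, h.apply hm]
    have h3 : ∀ y, lam G {u : Lab G | theta rep (y, u) ∈ {z : Y × Lab G | z.2 1 < a}} =
        ENNReal.ofReal a := by
      intro y
      have h4 : {u : Lab G | theta rep (y, u) ∈ {z : Y × Lab G | z.2 1 < a}} =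
          {u : Lab G | u (rep y 1⁻¹) < a} := rfl
      rw [h4, lam_lt h0 h1]
    simp only [h3]
    rw [lintegral_const, measure_univ, mul_one]

end Pool.Agent.Lib.MP_90732c_al.Cx
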