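import Pool.Agent.Lib.MP_90732c_al.Cx.Interfaces

/-! Module COL (helper70): the relation generated by Cayley edges between points of the same
colour. -/

set_option autoImplicit false

open MeasureTheory
open scoped ENNReal Pointwise

namespace Pool.Agent.Lib.MP_90732c_al.Cx

open Pool.Agent.Lib.MP_90732c_al.Ab

theorem col : ColStatement := by
  intro G _ _ Y _ _ ν hν d t c hc
  have hA : ∀ j : Fin d, MeasurableSet {y : Y | c y = c (t j • y)} := fun j =>
    measurableSet_eq_fun hc (hc.comp (hν (t j)).measurable)
  refine ⟨⟨hν, Gen.isRel t _, fun g => Gen.measurable t _ hA (fun g => (hν g).measurable) g⟩,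
    ?_, ?_, ?_, ?_⟩
  · intro y g h
    have h' : Gen t (fun j => {y | c y = c (t j • y)}) y g := h
    induction h' with
    | one => rw [one_smul]
    | fwd g i hg hk ih =>
      have h1 : c (g • y) = c (t i • g • y) := hk
      rw [mul_smul, ← h1]
      exact ih hg
    | bwd g i hg hk ih =>
      have h1 : c ((t i)⁻¹ • g • y) = c (t i • (t i)⁻¹ • g • y) := hk
      rw [smul_inv_smul] at h1
      rw [mul_smul, h1]
      exact ih hg
  · intro y g h
    refine Gen.mono ?_ y g h
    intro i y hy
    refine Gen.edge t _ i y ?_
    exact Gen.edge t (fun j => {y | c y = c (t j • y)}) i y hy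
  · intro y j h h1
    exact h (Gen.edge t (fun j => {y | c y = c (t j • y)}) j y h1)
  · intro S h1 h2 y g h
    refine Gen.mono ?_ y g (h1 y g h)
    intro i y hy
    refine Gen.edge t (fun j => {y | c y = c (t j • y)}) i y ?_
    exact (h2 y (t i) hy).symm

end Pool.Agent.Lib.MP_90732c_al.Cx
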