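import Pool.Agent.Lib.MP_90732c_al.Cx.Clfst

/-! Groups of bounded exponent have cost one: inequivalent points have the same colour with
probability `1 / N`. -/

set_option autoImplicit false

open MeasureTheory
open scoped ENNReal Pointwise

namespace Pool.Agent.Lib.MP_90732c_al.Cx

open Pool.Agent.Lib.MP_90732c_al.Ab

lemma le_unif_window {N : ℕ} (hN : 0 < N) {q : ℕ} (hq : q < N) :
    ENNReal.ofReal (1 / N) ≤ unif (window N q) := by
  have hN' : (0 : ℝ) < N := by exact_mod_cast hN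
  unfold unif
  rw [Measure.restrict_apply (measurableSet_window N q)]
  have hsub : Set.Ico ((q : ℝ) / N) ((q + 1) / N) ⊆ window N q ∩ Set.Icc 0 1 := by
    rintro y ⟨h1, h2⟩
    rw [div_le_iff₀ hN'] at h1
    rw [lt_div_iff₀ hN'] at h2
    have h0 : 0 ≤ y := by
      by_contra h
      rw [not_le] at h
      have : (0 : ℝ) ≤ q := Nat.cast_nonneg q
      nlinarith
    refine ⟨?_, h0, ?_⟩
    · change ⌊(N : ℝ) * y⌋₊ = q
      rw [Nat.floor_eq_iff (by positivity)]
      constructor <;> linarith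
    · have h3 : (q : ℝ) + 1 ≤ N := by exact_mod_cast hq
      by_contra h
      rw [not_le] at h
      nlinarith
  refine le_trans ?_ (measure_mono hsub)
  rw [Real.volume_Ico]
  apply ENNReal.ofReal_le_ofReal
  apply le_of_eq
  field_simp
  ring

lemma measurable_floor_lab {G : Type} (N : ℕ) (y : G) :
    Measurable fun u : Lab G => ⌊(N : ℝ) * u y⌋₊ := by
  have h : Measurable fun u : Lab G => u y := measurable_pi_apply y
  exact Nat.measurable_floor.comp (measurable_const.mul h)

/-- Two different labels are in different windows with probability at most `1 - 1 / N`. -/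
lemma lam_window_ne {G : Type} {x x' : G} (hx : x ≠ x') {N : ℕ} (hN : 0 < N) :
    lam G {u : Lab G | ⌊(N : ℝ) * u x⌋₊ ≠ ⌊(N : ℝ) * u x'⌋₊} ≤ ENNReal.ofReal (1 - 1 / N) := by
  classical
  have hN' : (0 : ℝ) < N := by exact_mod_cast hN
  have hm : ∀ y : G, Measurable fun u : Lab G => ⌊(N : ℝ) * u y⌋₊ := measurable_floor_lab N
  have hEm : MeasurableSet {u : Lab G | ⌊(N : ℝ) * u x⌋₊ = ⌊(N : ℝ) * u x'⌋₊} :=
    measurableSet_eq_fun (hm x) (hm x')
  have hcompl : {u : Lab G | ⌊(N : ℝ) * u x⌋₊ ≠ ⌊(N : ℝ) * u x'⌋₊} =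
      {u : Lab G | ⌊(N : ℝ) * u x⌋₊ = ⌊(N : ℝ) * u x'⌋₊}ᶜ := rfl
  rw [hcompl, prob_compl_eq_one_sub hEm]
  have hW : ∀ q : ℕ, MeasurableSet
      {u : Lab G | ∀ f ∈ ({x, x'} : Finset G), u f ∈ window N q} := by
    intro q
    have : {u : Lab G | ∀ f ∈ ({x, x'} : Finset G), u f ∈ window N q} =
        ⋂ f ∈ ({x, x'} : Finset G), (fun u : Lab G => u f) ⁻¹' window N q := by
      ext u; simp
    rw [this]
    exact Finset.measurableSet_biInter _ fun f _ =>
      (measurable_pi_apply f) (measurableSet_window N q)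
  have key : ENNReal.ofReal (1 / N) ≤
      lam G {u : Lab G | ⌊(N : ℝ) * u x⌋₊ = ⌊(N : ℝ) * u x'⌋₊} := by
    calc ENNReal.ofReal (1 / N)
        = ∑ _q ∈ Finset.range N, (ENNReal.ofReal (1 / N)) ^ 2 := by
          rw [Finset.sum_const, Finset.card_range, nsmul_eq_mul, ← ENNReal.ofReal_pow
            (by positivity), ← ENNReal.ofReal_natCast, ← ENNReal.ofReal_mul (by positivity)]
          congr 1
          field_simp
      _ ≤ ∑ q ∈ Finset.range N,
            lam G {u : Lab G | ∀ f ∈ ({x, x'} : Finset G), u f ∈ window N q} := by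
          refine Finset.sum_le_sum fun q hq => ?_
          have h1 := law_pi_window ({x, x'} : Finset G) N q
          have h2 : lam G {u : Lab G | ∀ f ∈ ({x, x'} : Finset G), u f ∈ window N q} =
              (unif (window N q)) ^ 2 := by
            rw [Finset.card_pair hx] at h1
            exact h1
          rw [h2]
          gcongr
          exact le_unif_window hN (Finset.mem_range.1 hq)
      _ = lam G (⋃ q ∈ Finset.range N,
            {u : Lab G | ∀ f ∈ ({x, x'} : Finset G), u f ∈ window N q}) := by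
          rw [measure_biUnion_finset]
          · intro q _ q' _ hqq
            rw [Function.onFun, Set.disjoint_left]
            intro u h1 h2
            have h3 : ⌊(N : ℝ) * u x⌋₊ = q := h1 x (by simp)
            have h4 : ⌊(N : ℝ) * u x⌋₊ = q' := h2 x (by simp)
            exact hqq (h3.symm.trans h4)
          · exact fun q _ => hW q
      _ ≤ _ := by
          apply measure_mono
          intro u hu
          simp only [Set.mem_iUnion] at hu
          obtain ⟨q, _, hu⟩ := hu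
          have h3 : ⌊(N : ℝ) * u x⌋₊ = q := hu x (by simp)
          have h4 : ⌊(N : ℝ) * u x'⌋₊ = q := hu x' (by simp)
          exact h3.trans h4.symm
  calc 1 - lam G {u : Lab G | ⌊(N : ℝ) * u x⌋₊ = ⌊(N : ℝ) * u x'⌋₊}
      ≤ 1 - ENNReal.ofReal (1 / N) := tsub_le_tsub_left key _
    _ = ENNReal.ofReal (1 - 1 / N) := by
        rw [ENNReal.ofReal_sub _ (by positivity), ENNReal.ofReal_one]

theorem cut : CutStatement := by
  intro G _ _ Y _ _ ν _ S ν' ℓ rep hS h N hN g
  have hm : ∀ y : G, Measurable fun u : Lab G => ⌊(N : ℝ) * u y⌋₊ := measurable_floor_lab N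
  have h1 : ν' {z | ⌊(N : ℝ) * ℓ z⌋₊ ≠ ⌊(N : ℝ) * ℓ (g • z)⌋₊} =
      ν' {z | ⌊(N : ℝ) * z.2 1⌋₊ ≠ ⌊(N : ℝ) * z.2 g⁻¹⌋₊} := by
    apply measure_congr
    filter_upwards [h.lab_one, h.lab] with z hz hz'
    apply propext
    change ⌊(N : ℝ) * ℓ z⌋₊ ≠ ⌊(N : ℝ) * ℓ (g • z)⌋₊ ↔
      ⌊(N : ℝ) * z.2 1⌋₊ ≠ ⌊(N : ℝ) * z.2 g⁻¹⌋₊
    rw [hz, hz' g]
  have hA : MeasurableSet {z : Y × Lab G | ⌊(N : ℝ) * z.2 1⌋₊ ≠ ⌊(N : ℝ) * z.2 g⁻¹⌋₊} :=
    (measurableSet_eq_fun ((hm 1).comp measurable_snd) ((hm g⁻¹).comp measurable_snd)).compl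
  rw [h1, h.apply hA]
  have hD : MeasurableSet {y | ¬ S y g} := (hS.meas g).compl
  calc ∫⁻ y, lam G {u : Lab G | theta rep (y, u) ∈
          {z : Y × Lab G | ⌊(N : ℝ) * z.2 1⌋₊ ≠ ⌊(N : ℝ) * z.2 g⁻¹⌋₊}} ∂ν
      ≤ ∫⁻ y, {y | ¬ S y g}.indicator (fun _ => ENNReal.ofReal (1 - 1 / N)) y ∂ν := by
        refine lintegral_mono fun y => ?_
        have h2 : {u : Lab G | theta rep (y, u) ∈
            {z : Y × Lab G | ⌊(N : ℝ) * z.2 1⌋₊ ≠ ⌊(N : ℝ) * z.2 g⁻¹⌋₊}} =
            {u : Lab G | ⌊(N : ℝ) * u (rep y 1)⌋₊ ≠ ⌊(N : ℝ) * u (rep y g)⌋₊} := by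
          ext u
          simp [theta]
        rw [h2]
        by_cases hy : S y g
        · have h3 : rep y 1 = rep y g := by
            rw [h.rep_iff]
            unfold Eqv
            rw [one_smul, inv_one, mul_one]
            exact hy
          have h4 : {u : Lab G | ⌊(N : ℝ) * u (rep y 1)⌋₊ ≠ ⌊(N : ℝ) * u (rep y g)⌋₊} = ∅ := by
            rw [h3]
            ext u
            simp
          rw [h4, measure_empty]
          exact zero_le
        · have h3 : rep y 1 ≠ rep y g := by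
            rw [Ne, h.rep_iff]
            unfold Eqv
            rw [one_smul, inv_one, mul_one]
            exact hy
          rw [Set.indicator_of_mem (show y ∈ {y | ¬ S y g} from hy)]
          exact lam_window_ne h3 hN
    _ = ENNReal.ofReal (1 - 1 / N) * ν {y | ¬ S y g} := by
        rw [lintegral_indicator_const hD]

end Pool.Agent.Lib.MP_90732c_al.Cx
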