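import Pool.Agent.Lib.MP_90732c_al.Ab.Defs
import Pool.Agent.Lib.MP_90732c_al.Ab.GEN

/-! Groups of bounded exponent have cost one: definitions. -/

set_option autoImplicit false

open MeasureTheory
open scoped ENNReal Pointwise

namespace Pool.Agent.Lib.MP_90732c_al.Cx

open Pool.Agent.Lib.MP_90732c_al.Ab

variable {G : Type} [Group G] {Y : Type} [MulAction G Y]

/-- The points `x • y` and `x' • y` are equivalent. -/
def Eqv (S : Y → G → Prop) (y : Y) (x x' : G) : Prop := S (x • y) (x' * x⁻¹)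

/-- A measurable equivalence relation on the orbits of a measure preserving action. -/
structure Sys [MeasurableSpace Y] (ν : Measure Y) (S : Y → G → Prop) : Prop where
  mp : ∀ g : G, MeasurePreserving (fun y : Y => g • y) ν ν
  rel : IsRel S
  meas : ∀ g : G, MeasurableSet {y | S y g}

/-- The points `y` and `g • y` are rarely equivalent for some far away `g`. -/
def Dispersed [MeasurableSpace Y] (ν : Measure Y) (S : Y → G → Prop) : Prop :=
  ∀ (X : Finset G) (e : ℝ≥0∞), 0 < e → ∃ g : G, ∀ x ∈ X, ν {y | S y (g * x)} ≤ e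

/-- Independent uniform labels `ℓ` of the classes of `S`. -/
structure IsClab [MeasurableSpace Y] (ν : Measure Y) (S : Y → G → Prop)
    (ν' : Measure (Y × Lab G)) (ℓ : Y × Lab G → ℝ) (rep : Y → G → G) : Prop where
  meas_rep : ∀ x g, MeasurableSet {y | rep y x = g}
  rep_iff : ∀ y x x', rep y x = rep y x' ↔ Eqv S y x x'
  eq_map : ν' = (ν.prod (lam G)).map
    (fun p : Y × Lab G => ((p.1, fun h => p.2 (rep p.1 h⁻¹)) : Y × Lab G))
  meas : Measurable ℓ
  mp : ∀ g : G, MeasurePreserving (fun z : Y × Lab G => g • z) ν' ν'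
  inv : ∀ z g, S z.1 g → ℓ (g • z) = ℓ z
  lab : ∀ᵐ z ∂ν', ∀ x : G, ℓ (x • z) = z.2 x⁻¹

/-- The relation generated by the Cayley edges between points of the same colour. -/
def Sc {d : ℕ} (t : Fin d → G) (c : Y → ℕ) : Y → G → Prop :=
  Gen t fun j => {y | c y = c (t j • y)}

/-- The set `B` meets at most `M` classes of each orbit. -/
def Few [MeasurableSpace Y] (ν : Measure Y) (S : Y → G → Prop) (B : Set Y) (M : ℕ) : Prop :=
  ∀ᵐ y ∂ν, ∀ s : Finset G, (∀ x ∈ s, x • y ∈ B) →
    (∀ x ∈ s, ∀ x' ∈ s, Eqv S y x x' → x = x') → s.card ≤ M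

/-- There is a dispersed relation, generated by Cayley edges, which cuts few Cayley edges. -/
def HasDisp {d : ℕ} (t : Fin d → G) (δ : ℝ≥0∞) : Prop :=
  ∃ (Y : Type) (_ : MeasurableSpace Y) (_ : StandardBorelSpace Y) (_ : MulAction G Y)
    (ν : Measure Y) (_ : IsProbabilityMeasure ν) (S : Y → G → Prop),
    Sys ν S ∧ Dispersed ν S ∧ (∀ y g, S y g → Gen t (fun j => {y | S y (t j)}) y g) ∧
      ∀ j, ν {y | ¬ S y (t j)} ≤ δ

open Classical in
/-- The products of `L` elements of `K`, `s` and their inverses. -/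
noncomputable def wds (K : Finset G) {r : ℕ} (s : Fin r → G) (L : ℕ) : Finset G :=
  (insert 1 (K ∪ K.image (fun x => x⁻¹) ∪ Finset.univ.image s ∪
    Finset.univ.image fun i => (s i)⁻¹)) ^ L

/-- The relation is nearly decided on all words, the elements of `K` are small, the elements
`s i` are far from each other. -/
structure Amp [MeasurableSpace Y] (ν : Measure Y) (S : Y → G → Prop) (K : Finset G) {r : ℕ}
    (s : Fin r → G) (L : ℕ) (η : ℝ≥0∞) : Prop where
  sys : Sys ν S
  dich : ∀ w ∈ wds K s L, ν {y | ¬ S y w} ≤ η ∨ ν {y | S y w} ≤ η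
  small : ∀ k ∈ K, ν {y | ¬ S y k} ≤ η
  far : ∀ i, ν {y | S y (s i)} ≤ η
  far' : ∀ i j, i ≠ j → ν {y | S y (s j * (s i)⁻¹)} ≤ η

open Classical in
/-- The points `(k μ)^i` and `(k' μ)^i (k μ)⁻¹` with `i₀ ≤ i < j`. -/
noncomputable def foot (μ k k' : G) (i₀ j : ℕ) : Finset G :=
  (Finset.Ico i₀ j).image (fun i => (k * μ) ^ i) ∪
    (Finset.Ico i₀ j).image fun i => (k' * μ) ^ i * (k * μ)⁻¹

open Classical in
/-- The points used for the pairs from `U`. -/
noncomputable def posn (μ : G) (U : Finset G) (n : ℕ) : Finset G :=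
  insert 1 (insert μ ((U ×ˢ Finset.range (n + 1)).image (fun p => (p.1 * μ) ^ p.2) ∪
    (U ×ˢ U ×ˢ Finset.range (n + 1)).image fun p => (p.2.1 * μ) ^ p.2.2 * (p.1 * μ)⁻¹))

end Pool.Agent.Lib.MP_90732c_al.Cx
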