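import Pool.Agent.Lib.MP_90732c_al.Cx.Interfaces

/-! Groups of bounded exponent have cost one: the monotone form of one step of the colour
process. -/

set_option autoImplicit false

open MeasureTheory
open scoped ENNReal Pointwise

namespace Pool.Agent.Lib.MP_90732c_al.Cx

open Pool.Agent.Lib.MP_90732c_al.Ab

/-- There is a dispersed relation, generated by Cayley edges, which cuts few Cayley edges and
connects `y` with `g • y` with probability `f g`. -/
def HasDispF {G : Type} [Group G] {d : ℕ} (t : Fin d → G) (δ : ℝ≥0∞) (f : G → ℝ≥0∞) : Prop :=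
  ∃ (Y : Type) (_ : MeasurableSpace Y) (_ : StandardBorelSpace Y) (_ : MulAction G Y)
    (ν : Measure Y) (_ : IsProbabilityMeasure ν) (S : Y → G → Prop),
    Sys ν S ∧ Dispersed ν S ∧ (∀ y g, S y g → Gen t (fun j => {y | S y (t j)}) y g) ∧
      (∀ j, ν {y | ¬ S y (t j)} ≤ δ) ∧ ∀ g, f g = ν {y | S y g}

/-- DSTM: one step of the colour process, the new relation contains the old one. -/
def DstmStatement : Prop :=
  ∀ (G : Type) [Group G] [Countable G] [Infinite G] (ε : ℝ≥0∞), CostGe G (1 + ε) →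
    ∀ (d : ℕ) (t : Fin d → G), Subgroup.closure (Set.range t) = ⊤ →
    ∀ (N : ℕ), 0 < N → (d : ℝ≥0∞) * ENNReal.ofReal (1 / N) < ε →
    ∀ (δ : ℝ≥0∞) (f : G → ℝ≥0∞), HasDispF t δ f →
      ∃ f' : G → ℝ≥0∞, (∀ g, f g ≤ f' g) ∧ HasDispF t (ENNReal.ofReal (1 - 1 / N) * δ) f'

/-- The old form. -/
theorem dst_of_dstm (H : DstmStatement) : DstStatement := by
  intro G _ _ _ ε hc d t ht N hN hd δ ⟨Y, i1, i2, i3, ν, i4, S, h1, h2, h3, h4⟩
  obtain ⟨f', _, Y', j1, j2, j3, ν', j4, S', k1, k2, k3, k4, _⟩ :=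
    H G ε hc d t ht N hN hd δ (fun g => ν {y | S y g})
      ⟨Y, i1, i2, i3, ν, i4, S, h1, h2, h3, h4, fun _ => rfl⟩
  exact ⟨Y', j1, j2, j3, ν', j4, S', k1, k2, k3, k4⟩

end Pool.Agent.Lib.MP_90732c_al.Cx
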