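import Pool.Agent.Lib.MP_90732c_al.Cx.Dstm
import Pool.Agent.Lib.MP_90732c_al.Ab.EXT
import Pool.Agent.Lib.MP_90732c_al.Ab.ADG
import Pool.Agent.Lib.MP_90732c_al.Ab.FIN

/-! Groups of bounded exponent have cost one: one step of the colour process. -/

set_option autoImplicit false

open MeasureTheory
open scoped ENNReal Pointwise

namespace Pool.Agent.Lib.MP_90732c_al.Cx

open Pool.Agent.Lib.MP_90732c_al.Ab

/-- DSTM: the monotone form of one step of the colour process. -/
theorem dstm (hClab : ClabStatement) (hCut : CutStatement) (hMix : MixStatement)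
    (hFew : FewStatement) (hHsf : HsfStatement) (hCol : ColStatement)
    (hClfst : ClfstStatement) : DstmStatement := by
  intro G _ _ _ ε hc d t ht N hN hd δ f hf
  obtain ⟨Y, _, _, _, ν, _, S, hS, hdis, hcc, hcut, hf⟩ := hf
  obtain ⟨ν', ℓ, rep, _, hL⟩ := hClab G Y ν S hS
  obtain ⟨_, hfst, _⟩ := hClfst G Y ν S ν' ℓ rep hL
  set c : Y × Lab G → ℕ := fun z => ⌊(N : ℝ) * ℓ z⌋₊ with hcdef
  have hcm : Measurable c := Nat.measurable_floor.comp (measurable_const.mul hL.meas)
  obtain ⟨hS', hcinv, hcc', hcol, hmax⟩ := hCol G (Y × Lab G) ν' hL.mp d t c hcm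
  -- the old relation is contained in the new one
  have hsub : ∀ (z : Y × Lab G) (g : G), S z.1 g → Sc t c z g := by
    refine hmax (fun z g => S z.1 g) ?_ ?_
    · intro z g hz
      exact (gen_prod_iff t (fun j => {y | S y (t j)}) z g).2 (hcc z.1 g hz)
    · intro z g hz
      change ⌊(N : ℝ) * ℓ (g • z)⌋₊ = ⌊(N : ℝ) * ℓ z⌋₊
      rw [hL.inv z g hz]
  refine ⟨fun g => ν' {z | Sc t c z g}, fun g => ?_, Y × Lab G, inferInstance, inferInstance,
    inferInstance, ν', inferInstance, Sc t c, hS', ?_, hcc', fun j => ?_, fun _ => rfl⟩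
  · rw [hf g, ← hfst {y | S y g} (hS.meas g)]
    exact measure_mono fun z hz => hsub z g hz
  · -- dispersed
    by_contra hnd
    obtain ⟨B, q, M, hB, hB0, hBq, hBS, hBM⟩ :=
      hFew G (Y × Lab G) ν' (Sc t c) hS' hnd c hcm hcinv
    set T : Set (Y × Lab G) := {z | ∃ g : G, g • z ∈ B} with hT
    have hTm : MeasurableSet T := by
      have : T = ⋃ g : G, (fun z : Y × Lab G => g • z) ⁻¹' B := by
        ext z
        simp [hT]
      rw [this]
      exact MeasurableSet.iUnion fun g => (hL.mp g).measurable hB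
    have hTinv : ∀ (g : G) z, g • z ∈ T ↔ z ∈ T := by
      intro g z
      constructor
      · rintro ⟨h, hh⟩
        exact ⟨h * g, by rwa [mul_smul]⟩
      · rintro ⟨h, hh⟩
        exact ⟨h * g⁻¹, by rwa [mul_smul, inv_smul_smul]⟩
    have hBT : ν' B ≤ ENNReal.ofReal (1 / N) * ν' T := by
      refine le_trans (measure_mono ?_) (hMix G Y ν S ν' ℓ rep hS hL hdis T hTm hTinv N hN q)
      intro z hz
      exact ⟨⟨1, by rwa [one_smul]⟩, hBq z hz⟩
    obtain ⟨p, hp0, hp⟩ := ENNReal.lt_iff_exists_add_pos_lt.1 hd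
    have hst := hHsf G (Y × Lab G) ν' (Sc t c) hS' d t hcc' B M hB hB0 hBS hBM
      (ENNReal.ofReal (1 / N)) hBT p (by exact_mod_cast hp0)
    have h1 := le_of_hasFull hc ht (hasFull_of_hasState t hst)
    rw [add_zero] at h1
    have hfin : (1 : ℝ≥0∞) + (d * ENNReal.ofReal (1 / N) + p) < 1 + ε :=
      ENNReal.add_lt_add_left ENNReal.one_ne_top hp
    exact absurd (lt_of_le_of_lt h1 hfin) (lt_irrefl _)
  · -- the cut
    calc ν' {z | ¬ Sc t c z (t j)} ≤ ν' {z | ⌊(N : ℝ) * ℓ z⌋₊ ≠ ⌊(N : ℝ) * ℓ (t j • z)⌋₊} :=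
          measure_mono fun z hz => hcol z j hz
      _ ≤ ENNReal.ofReal (1 - 1 / N) * ν {y | ¬ S y (t j)} :=
          hCut G Y ν S ν' ℓ rep hS hL N hN (t j)
      _ ≤ ENNReal.ofReal (1 - 1 / N) * δ := by
          gcongr
          exact hcut j

end Pool.Agent.Lib.MP_90732c_al.Cx
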