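import Pool.Agent.Lib.MP_90732c_al.Cx.Interfaces

/-! FEW: a set of finitely many classes of one colour. -/

set_option autoImplicit false

open MeasureTheory
open scoped ENNReal Pointwise

namespace Pool.Agent.Lib.MP_90732c_al.Cx

open Pool.Agent.Lib.MP_90732c_al.Ab

theorem few (h : WgtStatement) : FewStatement := by
  intro G _ _ Y _ _ ν _ S hS hD c hc hcinv
  obtain ⟨w, M0, hw, hinv, hsum, hpos⟩ := h G Y ν S hS hD
  -- a level
  have h1 : ∃ η : ℝ, 0 < η ∧ 0 < ν {y | η < w y} := by
    by_contra hno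
    push Not at hno
    have h0 : ν {y | 0 < w y} = 0 := by
      have hsub : {y | 0 < w y} ⊆ ⋃ n : ℕ, {y | 1 / ((n : ℝ) + 1) < w y} := by
        intro y hy
        obtain ⟨n, hn⟩ := exists_nat_one_div_lt (show (0 : ℝ) < w y from hy)
        exact Set.mem_iUnion.2 ⟨n, hn⟩
      refine measure_mono_null hsub (measure_iUnion_null fun n => ?_)
      have := hno (1 / ((n : ℝ) + 1)) (by positivity)
      exact le_antisymm this bot_le
    have hle : w ≤ᵐ[ν] 0 := by
      have : ∀ᵐ y ∂ν, ¬ 0 < w y := by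
        rw [ae_iff]
        simpa using h0
      filter_upwards [this] with y hy
      exact not_lt.1 hy
    have := integral_nonpos_of_ae hle
    linarith
  obtain ⟨η, hη, hη1⟩ := h1
  have h2 : ∃ q : ℕ, 0 < ν {y | η < w y ∧ c y = q} := by
    by_contra hno
    push Not at hno
    have hsub : {y | η < w y} ⊆ ⋃ q : ℕ, {y | η < w y ∧ c y = q} := by
      intro y hy
      exact Set.mem_iUnion.2 ⟨c y, hy, rfl⟩
    have : ν {y | η < w y} = 0 :=
      measure_mono_null hsub (measure_iUnion_null fun q => le_antisymm (hno q) bot_le)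
    exact absurd this hη1.ne'
  obtain ⟨q, hq⟩ := h2
  have hBdef : {y | c y = q ∧ ∀ g, S y g → η < w (g • y)} =
      {y | c y = q} ∩ ⋂ g : G, ({y | S y g}ᶜ ∪ {y | η < w (g • y)}) := by
    ext y
    simp only [Set.mem_ofPred_eq, Set.mem_inter_iff, Set.mem_iInter, Set.mem_union,
      Set.mem_compl_iff, imp_iff_not_or]
  have hfwd : ∀ y g, S y g → y ∈ {y | c y = q ∧ ∀ g, S y g → η < w (g • y)} →
      g • y ∈ {y | c y = q ∧ ∀ g, S y g → η < w (g • y)} := by
    intro y g hyg hy
    refine ⟨(hcinv y g hyg).trans hy.1, fun k hk => ?_⟩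
    have := hy.2 (k * g) (hS.rel.mul y g k hyg hk)
    rwa [mul_smul] at this
  refine ⟨{y | c y = q ∧ ∀ g, S y g → η < w (g • y)}, q, ⌈(M0 : ℝ) / η⌉₊, ?_, ?_,
    fun y hy => hy.1, ?_, ?_⟩
  · rw [hBdef]
    refine (hc (measurableSet_singleton q)).inter (MeasurableSet.iInter fun g => ?_)
    refine (hS.meas g).compl.union ?_
    exact measurableSet_lt measurable_const (hw.comp (hS.mp g).measurable)
  · refine lt_of_lt_of_le hq (measure_mono_ae ?_)
    filter_upwards [hinv] with y hy hyA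
    obtain ⟨hy1, hy2⟩ : η < w y ∧ c y = q := hyA
    refine ⟨hy2, fun g hg => ?_⟩
    rw [hy g hg]
    exact hy1
  · intro y g hyg
    refine ⟨fun hy => ?_, hfwd y g hyg⟩
    have := hfwd (g • y) g⁻¹ (hS.rel.inv y g hyg) hy
    rwa [inv_smul_smul] at this
  · filter_upwards [hsum] with y hy s hs hne
    have h3 := hy s hne
    have h4 : (s.card : ℝ) * η ≤ ∑ x ∈ s, w (x • y) := by
      have : ∑ x ∈ s, η ≤ ∑ x ∈ s, w (x • y) := by
        refine Finset.sum_le_sum fun x hx => ?_
        have := (hs x hx).2 1 (hS.rel.one _)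
        rw [one_smul] at this
        exact this.le
      simpa [Finset.sum_const, nsmul_eq_mul] using this
    have h5 : (s.card : ℝ) ≤ (M0 : ℝ) / η := by
      rw [le_div_iff₀ hη]
      linarith
    exact_mod_cast h5.trans (Nat.le_ceil _)

end Pool.Agent.Lib.MP_90732c_al.Cx
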