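import Pool.Agent.Lib.MP_90732c_al.Cx.Interfaces
import Pool.Agent.Lib.MP_90732c_al.Ab.ADD
import Pool.Agent.Lib.MP_90732c_al.Ab.REP
import Pool.Agent.Lib.MP_90732c_al.Ab.LAB

/-! Module HSF (helper3): a cheap graphing from a set of finitely many classes. -/

set_option autoImplicit false

open MeasureTheory
open scoped ENNReal Pointwise

namespace Pool.Agent.Lib.MP_90732c_al.Cx

open Pool.Agent.Lib.MP_90732c_al.Ab

variable {G : Type} [Group G] {Y : Type} [MulAction G Y]

/-- The first element of the group which moves the point into `B`. -/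
theorem exists_first [Countable G] [MeasurableSpace Y]
    (hG : ∀ g : G, Measurable fun y : Y => g • y) (B : Set Y) (hB : MeasurableSet B) :
    ∃ a : Y → G, (∀ g, MeasurableSet {y | a y = g}) ∧
      ∀ y, (∃ g : G, g • y ∈ B) → a y • y ∈ B := by
  classical
  have : Encodable G := Encodable.ofCountable G
  let P : Y → ℕ → Prop := fun y n => ∃ g : G, Encodable.encode g = n ∧ g • y ∈ B
  have hP : ∀ y, (∃ g : G, g • y ∈ B) → ∃ n, P y n := fun y ⟨g, hg⟩ => ⟨_, g, rfl, hg⟩
  have hex : ∀ y, ∃ a : G, ((∃ g : G, g • y ∈ B) → a • y ∈ B ∧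
      ∀ h : G, Encodable.encode h < Encodable.encode a → h • y ∉ B) ∧
      ((¬ ∃ g : G, g • y ∈ B) → a = 1) := by
    intro y
    by_cases h : ∃ g : G, g • y ∈ B
    · obtain ⟨a, ha, hab⟩ := Nat.find_spec (hP y h)
      refine ⟨a, fun _ => ⟨hab, fun k hk hkB => ?_⟩, fun h' => absurd h h'⟩
      rw [ha] at hk
      exact Nat.find_min (hP y h) hk ⟨k, rfl, hkB⟩
    · exact ⟨1, fun h' => absurd h' h, fun _ => rfl⟩
  choose a ha1 ha2 using hex
  refine ⟨a, fun g => ?_, fun y hy => (ha1 y hy).1⟩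
  have hE : ∀ g : G, MeasurableSet {y : Y | g • y ∈ B} := fun g => hG g hB
  have hT : MeasurableSet {y : Y | ∃ g : G, g • y ∈ B} := by
    have : {y : Y | ∃ g : G, g • y ∈ B} = ⋃ g : G, {y | g • y ∈ B} := by
      ext y; simp
    rw [this]
    exact MeasurableSet.iUnion hE
  have key : {y | a y = g} = ({y : Y | g • y ∈ B} ∩
      ⋂ h : G, {y : Y | Encodable.encode h < Encodable.encode g → h • y ∉ B}) ∪
      ({y : Y | ∃ g : G, g • y ∈ B}ᶜ ∩ {_y : Y | g = 1}) := by
    ext y
    simp only [Set.mem_ofPred_eq, Set.mem_union, Set.mem_inter_iff, Set.mem_iInter,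
      Set.mem_compl_iff]
    constructor
    · intro h
      by_cases hy : ∃ g : G, g • y ∈ B
      · have h1 := ha1 y hy
        rw [h] at h1
        exact Or.inl h1
      · have h1 := ha2 y hy
        exact Or.inr ⟨hy, h.symm.trans h1⟩
    · rintro (⟨h1, h2⟩ | ⟨h1, h2⟩)
      · have h3 := ha1 y ⟨g, h1⟩
        rcases lt_trichotomy (Encodable.encode (a y)) (Encodable.encode g) with h4 | h4 | h4
        · exact absurd h3.1 (h2 _ h4)
        · exact Encodable.encode_injective h4
        · exact absurd h1 (h3.2 _ h4)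
      · rw [ha2 y h1, h2]
  rw [key]
  refine MeasurableSet.union ((hE g).inter (MeasurableSet.iInter fun h => ?_))
    (hT.compl.inter (MeasurableSet.const _))
  by_cases hh : Encodable.encode h < Encodable.encode g
  · have : {y : Y | Encodable.encode h < Encodable.encode g → h • y ∉ B} =
        {y : Y | h • y ∈ B}ᶜ := by
      ext y; simp [hh]
    rw [this]
    exact (hE h).compl
  · have : {y : Y | Encodable.encode h < Encodable.encode g → h • y ∉ B} = Set.univ := by
      ext y; simp [hh]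
    rw [this]
    exact MeasurableSet.univ

/-- The conditional measure of an invariant set is invariant. -/
theorem cond_mp [MeasurableSpace Y] {ν : Measure Y}
    (hν : ∀ g : G, MeasurePreserving (fun y : Y => g • y) ν ν) {T : Set Y}
    (hT : MeasurableSet T) (hinv : ∀ (g : G) y, g • y ∈ T ↔ y ∈ T) (g : G) :
    MeasurePreserving (fun y : Y => g • y) (ProbabilityTheory.cond ν T)
      (ProbabilityTheory.cond ν T) := by
  unfold ProbabilityTheory.cond
  have h1 := (hν g).restrict_preimage hT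
  have h2 : (fun y : Y => g • y) ⁻¹' T = T := by
    ext y
    exact hinv g y
  rw [h2] at h1
  exact h1.smul_measure _

/-- Infinitely many labels are not all large. -/
theorem lam_inf {H : Set G} (hH : H.Infinite) {l : ℝ} (h0 : 0 < l) (h1 : l ≤ 1) :
    lam G {ω | ∀ x ∈ H, ¬ ω x⁻¹ < l} = 0 := by
  have hle : ∀ n : ℕ, lam G {ω | ∀ x ∈ H, ¬ ω x⁻¹ < l} ≤ ENNReal.ofReal ((1 - l) ^ n) := by
    intro n
    obtain ⟨t, ht, hc⟩ := hH.exists_subset_card_eq n
    classical
    have e1 : (t.image fun x => x⁻¹).card = n := by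
      rw [Finset.card_image_of_injective _ inv_injective, hc]
    rw [← e1, ← lam_not_lt (t.image fun x => x⁻¹) h0.le h1]
    refine measure_mono ?_
    intro ω hω h hh
    obtain ⟨x, hx, rfl⟩ := Finset.mem_image.1 hh
    exact hω x (ht hx)
  have h2 : Filter.Tendsto (fun n : ℕ => ENNReal.ofReal ((1 - l) ^ n)) Filter.atTop
      (nhds 0) := by
    have h3 : Filter.Tendsto (fun n : ℕ => (1 - l) ^ n) Filter.atTop (nhds 0) :=
      tendsto_pow_atTop_nhds_zero_of_lt_one (by linarith) (by linarith)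
    have h4 := ENNReal.tendsto_ofReal h3
    rwa [ENNReal.ofReal_zero] at h4
  exact le_antisymm (ge_of_tendsto' h2 hle) zero_le

theorem hsf (h : ParStatement) : HsfStatement := by
  intro G _ _ _ Y _ _ _ ν _ S hS d t hgen B M hB hB0 hinv hfew θ hθ p hp
  classical
  set T : Set Y := {y | ∃ g : G, g • y ∈ B} with hTdef
  have hT : MeasurableSet T := by
    have : T = ⋃ g : G, {y | g • y ∈ B} := by
      ext y; simp [hTdef]
    rw [this]
    exact MeasurableSet.iUnion fun g => (hS.mp g).measurable hB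
  have hBT : B ⊆ T := fun y hy => ⟨1, by rwa [one_smul]⟩
  have hTinv : ∀ (g : G) y, g • y ∈ T ↔ y ∈ T := by
    intro g y
    constructor
    · rintro ⟨k, hk⟩
      exact ⟨k * g, by rwa [mul_smul]⟩
    · rintro ⟨k, hk⟩
      exact ⟨k * g⁻¹, by rwa [mul_smul, inv_smul_smul]⟩
  have hT0 : ν T ≠ 0 := fun h0 => hB0.ne' (measure_mono_null hBT h0)
  have hpT : IsProbabilityMeasure (ProbabilityTheory.cond ν T) :=
    ProbabilityTheory.cond_isProbabilityMeasure hT0
  set P : Measure Y := ProbabilityTheory.cond ν T with hP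
  have hPmp : ∀ g : G, MeasurePreserving (fun y : Y => g • y) P P := cond_mp hS.mp hT hTinv
  have hPT : ∀ᵐ y ∂P, y ∈ T := by
    rw [ae_iff]
    show P Tᶜ = 0
    rw [hP, ProbabilityTheory.cond_apply hT]
    simp
  have hPB : P B ≤ θ := by
    rw [hP, ProbabilityTheory.cond_apply hT, Set.inter_eq_right.2 hBT, mul_comm,
      ← div_eq_mul_inv]
    exact ENNReal.div_le_of_le_mul hθ
  -- the product with the labels
  set Q : Measure (Y × Lab G) := P.prod (lam G) with hQ
  have hQmp : ∀ g : G, MeasurePreserving (fun z : Y × Lab G => g • z) Q Q := fun g =>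
    (hPmp g).prod (lam_measurePreserving g)
  have hQm : ∀ g : G, Measurable fun z : Y × Lab G => g • z := fun g => (hQmp g).measurable
  have hfst : ∀ E : Set Y, MeasurableSet E → Q {z | z.1 ∈ E} = P E := by
    intro E _
    have : {z : Y × Lab G | z.1 ∈ E} = E ×ˢ (Set.univ : Set (Lab G)) := by
      ext z; simp
    rw [this, hQ, Measure.prod_prod, measure_univ, mul_one]
  have hlab : ∀ (l : ℝ), MeasurableSet {z : Y × Lab G | z.2 1 < l} := by
    intro l
    have h1 : Measurable fun z : Y × Lab G => z.2 1 :=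
      (measurable_pi_apply (1 : G)).comp measurable_snd
    exact h1 measurableSet_Iio
  -- the graphing
  obtain ⟨a, ha1, ha2⟩ := exists_first (G := G) (fun g => (hS.mp g).measurable) B hB
  obtain ⟨S₁, h11, -, h13⟩ := (exc_one (G := G) Q).replace hQmp {z | z.1 ∈ B}
    (measurable_fst hB) (fun z => a z.1) (fun g => measurable_fst (ha1 g))
  have hC1 : ∀ j, MeasurableSet {z : Y × Lab G | z.1 ∈ B ∧ t j • z.1 ∈ B} := fun j =>
    (measurable_fst hB).inter (((hS.mp (t j)).measurable.comp measurable_fst) hB)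
  obtain ⟨S₂, h21, h22, h23⟩ := h11.add t (fun j => {z | z.1 ∈ B ∧ t j • z.1 ∈ B}) hC1
  obtain ⟨e, he0, hes⟩ := ENNReal.exists_pos_sum_of_countable hp.ne' G
  let l : G → ℝ := fun μ => min (e μ : ℝ) 1
  have hl0 : ∀ μ, 0 < l μ := fun μ => lt_min (he0 μ) one_pos
  have hl1 : ∀ μ, l μ ≤ 1 := fun μ => min_le_right _ _
  obtain ⟨S₃, h31, h32, h33⟩ := h21.add (fun μ : G => μ) (fun μ => {z | z.2 1 < l μ})
    (fun μ => hlab _)
  have hrel : IsRel S₃ := h31.isRel
  have hmeas : ∀ g : G, MeasurableSet {z : Y × Lab G | S₃ z g} := fun g =>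
    h31.measurableSet hQm g
  -- the excess
  have hexc : (0 : ℝ≥0∞) + ∑' j, Q {z | z.1 ∈ B ∧ t j • z.1 ∈ B} +
      ∑' μ : G, Q {z | z.2 1 < l μ} ≤ d * θ + p := by
    rw [zero_add]
    refine add_le_add ?_ ?_
    · rw [tsum_fintype]
      calc ∑ j, Q {z : Y × Lab G | z.1 ∈ B ∧ t j • z.1 ∈ B} ≤ ∑ _j : Fin d, θ := by
            refine Finset.sum_le_sum fun j _ => ?_
            have h1 : Q {z : Y × Lab G | z.1 ∈ B ∧ t j • z.1 ∈ B} ≤
                Q {z : Y × Lab G | z.1 ∈ B} := measure_mono fun z hz => hz.1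
            refine h1.trans ?_
            rw [hfst B hB]
            exact hPB
        _ = d * θ := by simp
    · refine le_trans (ENNReal.tsum_le_tsum fun μ => ?_) hes.le
      have : {z : Y × Lab G | z.2 1 < l μ} =
          (Set.univ : Set Y) ×ˢ {ω : Lab G | ω 1 < l μ} := by
        ext z; simp
      rw [this, hQ, Measure.prod_prod, measure_univ, one_mul, lam_lt (hl0 μ).le (hl1 μ)]
      refine (ENNReal.ofReal_le_ofReal (min_le_left _ _)).trans ?_
      exact le_of_eq (ENNReal.ofReal_coe_nnreal)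
  -- the relation `S` inside of `B`
  have hin : ∀ (z : Y × Lab G) (g : G), z.1 ∈ B → S z.1 g → S₃ z g := by
    intro z g hz hg
    have key : ∀ (y : Y) (g : G), Gen t (fun j => {y | S y (t j)}) y g → ∀ z : Y × Lab G,
        z.1 = y → y ∈ B → S₃ z g ∧ g • y ∈ B := by
      intro y g hg
      induction hg with
      | one =>
        intro z _ hy
        exact ⟨hrel.one z, by rwa [one_smul]⟩
      | fwd g i _ hi ih =>
        intro z hz hy
        obtain ⟨h1, h2⟩ := ih z hz hy
        have h3 : t i • g • z.1 ∈ B := by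
          rw [hz]
          exact (hinv _ _ hi).2 h2
        have h4 : (g • z).1 ∈ B := by
          rw [Prod.smul_fst, hz]; exact h2
        have h5 : S₂ (g • z) (t i) := h23 i (g • z) ⟨h4, h3⟩
        refine ⟨hrel.mul z g (t i) h1 (h32 _ _ h5), ?_⟩
        rw [hz] at h3
        rwa [mul_smul]
      | bwd g i _ hi ih =>
        intro z hz hy
        obtain ⟨h1, h2⟩ := ih z hz hy
        have h3 : (t i)⁻¹ • g • z.1 ∈ B := by
          rw [hz]
          refine (hinv _ _ hi).1 ?_
          rwa [smul_inv_smul]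
        have h5 : S₂ ((t i)⁻¹ • g • z) (t i) := by
          refine h23 i _ ⟨?_, ?_⟩
          · rw [Prod.smul_fst, Prod.smul_fst]; exact h3
          · rw [Prod.smul_fst, Prod.smul_fst, smul_inv_smul, hz]
            exact h2
        have h6 := hrel.inv _ _ (h32 _ _ h5)
        rw [smul_inv_smul] at h6
        refine ⟨hrel.mul z g (t i)⁻¹ h1 h6, ?_⟩
        rw [hz] at h3
        rwa [mul_smul]
    exact (key z.1 g (hgen _ _ hg) z rfl hz).1
  -- two points of `B`
  have hpar := h G Y ν S hS B M hB hinv hfew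
  have hparP : ∀ᵐ y ∂P, ∀ μ : G, y ∈ B → μ • y ∈ B →
      {x : G | S y x ∧ S (μ • y) (μ * x * μ⁻¹)}.Infinite :=
    ProbabilityTheory.cond_absolutelyContinuous hpar
  have hBB : ∀ μ : G, ∀ᵐ z ∂Q, z.1 ∈ B → μ • z.1 ∈ B → S₃ z μ := by
    intro μ
    set bad : Set (Y × Lab G) := {z | z.1 ∈ B ∧ μ • z.1 ∈ B ∧ ¬ S₃ z μ} with hbad
    have hbm : MeasurableSet bad :=
      (measurable_fst hB).inter ((((hS.mp μ).measurable.comp measurable_fst) hB).inter
        (hmeas μ).compl)
    have hb0 : Q bad = 0 := by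
      rw [hQ, Measure.measure_prod_null hbm]
      filter_upwards [hparP] with y hy
      by_cases hyB : y ∈ B ∧ μ • y ∈ B
      · have hH := hy μ hyB.1 hyB.2
        refine measure_mono_null ?_ (lam_inf hH (hl0 μ) (hl1 μ))
        intro ω hω x hx hlt
        obtain ⟨-, -, h3⟩ := hω
        refine h3 ?_
        -- the parallel edge
        have e1 : S₃ (y, ω) x := hin (y, ω) x hyB.1 hx.1
        have e2 : S₃ (x • (y, ω)) μ := by
          refine h33 μ _ ?_
          show (x • ω) 1 < l μ
          rw [smul_lab, mul_one]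
          exact hlt
        have e3 : S₃ (μ • (y, ω)) (μ * x * μ⁻¹) := by
          refine hin _ _ ?_ ?_
          · rw [Prod.smul_fst]; exact hyB.2
          · rw [Prod.smul_fst]; exact hx.2
        have e4 := hrel.inv _ _ e3
        have e5 : (μ * x * μ⁻¹) • μ • ((y, ω) : Y × Lab G) = (μ * x) • (y, ω) := by
          rw [← mul_smul]; congr 1; group
        rw [e5] at e4
        have e6 := hrel.mul _ _ _ e1 e2
        have e7 := hrel.mul _ _ _ e6 e4
        have e8 : (μ * x * μ⁻¹)⁻¹ * (μ * x) = μ := by group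
        rwa [e8] at e7
      · have : Prod.mk y ⁻¹' bad = ∅ := by
          ext ω
          simp only [Set.mem_preimage, hbad, Set.mem_ofPred_eq, Set.mem_empty_iff_false,
            iff_false]
          rintro ⟨h1, h2, -⟩
          exact hyB ⟨h1, h2⟩
        rw [this]
        simp
    rw [ae_iff]
    refine measure_mono_null ?_ hb0
    intro z hz
    simp only [Set.mem_ofPred_eq, not_forall] at hz
    obtain ⟨h1, h2, h3⟩ := hz
    exact ⟨h1, h2, h3⟩
  have hall : ∀ᵐ z ∂Q, ∀ x μ : G, (x • z).1 ∈ B → μ • (x • z).1 ∈ B → S₃ (x • z) μ := by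
    rw [ae_all_iff]
    intro x
    rw [ae_all_iff]
    intro μ
    exact (hQmp x).quasiMeasurePreserving.ae (hBB μ)
  have hTQ : ∀ᵐ z ∂Q, z.1 ∈ T := by
    rw [ae_iff]
    have h1 := hfst Tᶜ hT.compl
    have h2 : P Tᶜ = 0 := hPT
    rw [h2] at h1
    exact h1
  -- every point is joined to `B`
  have hjoin : ∀ z : Y × Lab G, z.1 ∈ T → ∃ b : G, S₃ z b ∧ (b • z).1 ∈ B := by
    intro z hz
    by_cases hzB : z.1 ∈ B
    · exact ⟨1, hrel.one z, by rwa [one_smul]⟩
    · refine ⟨a z.1, h32 _ _ (h22 _ _ (h13 z hzB)), ?_⟩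
      rw [Prod.smul_fst]
      exact ha2 z.1 hz
  have hfull : ∀ᵐ z ∂Q, ∀ g : G, S₃ z g := by
    filter_upwards [hall, hTQ] with z hz hzT g
    obtain ⟨b, hb1, hb2⟩ := hjoin z hzT
    obtain ⟨b', hb1', hb2'⟩ := hjoin (g • z) (by rw [Prod.smul_fst]; exact (hTinv g _).2 hzT)
    -- from `b • z` to `b' • g • z`
    have h1 : (b' * g * b⁻¹) • (b • z).1 ∈ B := by
      rw [← Prod.smul_fst, ← mul_smul, inv_mul_cancel_right, mul_smul]
      exact hb2'
    have h2 := hz b (b' * g * b⁻¹) hb2 h1
    have h3 := hrel.mul _ _ _ hb1 h2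
    rw [inv_mul_cancel_right] at h3
    have h4 := hrel.inv _ _ hb1'
    rw [← mul_smul] at h4
    have h5 := hrel.mul _ _ _ h3 h4
    rwa [inv_mul_cancel_left] at h5
  refine ⟨Y × Lab G, inferInstance, inferInstance, inferInstance, Q, inferInstance, S₃, hQmp,
    h31.mono hexc, ?_⟩
  refine le_of_eq (Finset.sum_eq_zero fun i _ => ?_)
  have h1 : ∀ᵐ z ∂Q, S₃ z (t i) := hfull.mono fun z hz => hz _
  rwa [ae_iff] at h1

end Pool.Agent.Lib.MP_90732c_al.Cx
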