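import Pool.Agent.Lib.MP_90732c_al.Ab.GEN
import Pool.Agent.Lib.MP_90732c_al.Ab.LAB
import Pool.Agent.Lib.MP_90732c_al.Master

/-! Groups of bounded exponent have cost one, second part: interfaces.

Part one (from cost greater than one) produces `HasSeq G T`, hence `HasWalls G`; part two shows
that `HasWalls G` and bounded exponent are incompatible with cost greater than one. -/

set_option autoImplicit false

open MeasureTheory
open scoped ENNReal Pointwise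

namespace Pool.Agent.Lib.MP_90732c_al.Cx

open Pool.Agent.Lib.MP_90732c_al.Ab

/-! ### Walls -/

/-- Part one: random equivalence relations `S i` on the orbits which contain the generators up to
`2⁻ⁱ`, such that for every `k` there is `g` which connects with probability at most `1 / 2` for
all `i < k`. -/
def HasSeq (G : Type) [Group G] (T : Finset G) : Prop :=
  ∃ (X : ℕ → Type) (_ : ∀ i, MeasurableSpace (X i)) (_ : ∀ i, StandardBorelSpace (X i))
    (_ : ∀ i, MulAction G (X i)) (μ : ∀ i, Measure (X i)) (_ : ∀ i, IsProbabilityMeasure (μ i))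
    (S : ∀ i, X i → G → Prop),
    (∀ i, ∀ g : G, MeasurePreserving (fun x : X i => g • x) (μ i) (μ i)) ∧
    (∀ i, IsRel (S i)) ∧ (∀ i g, MeasurableSet {x | S i x g}) ∧
    (∀ i, ∀ t ∈ T, μ i {x | ¬ S i x t} ≤ (2⁻¹ : ℝ≥0∞) ^ i) ∧
    ∀ k : ℕ, ∃ g : G, ∀ i < k, μ i {x | S i x g} ≤ 2⁻¹

/-- Nearly invariant sets: an unbounded length function `ψ` on `G` and for all small `η`, `l` an
action with a set `A` of measure `1 - η` such that `A` is nearly invariant under the elements of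
small length and nearly independent of its translates under the elements of great length. -/
def HasWalls (G : Type) [Group G] : Prop :=
  ∃ ψ : G → ℝ, (∀ g, 0 ≤ ψ g) ∧ (∀ g h, ψ (g * h) ≤ ψ g + ψ h) ∧ (∀ g, ψ g⁻¹ = ψ g) ∧
    (∀ M : ℝ, ∃ g, M ≤ ψ g) ∧
    ∀ η l : ℝ, 0 < η → η < 1 → 0 < l → l ≤ 1 →
      ∃ (Ω : Type) (_ : MeasurableSpace Ω) (_ : StandardBorelSpace Ω) (_ : MulAction G Ω)
        (P : Measure Ω) (_ : IsProbabilityMeasure P) (A : Set Ω),
        (∀ g : G, MeasurePreserving (fun ω : Ω => g • ω) P P) ∧ MeasurableSet A ∧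
        P Aᶜ = ENNReal.ofReal η ∧
        (∀ g : G, P {ω | ω ∉ A ∧ g • ω ∈ A} ≤ ENNReal.ofReal (l * ψ g)) ∧
        ∀ g : G, P {ω | ω ∉ A ∧ g • ω ∉ A} ≤ ENNReal.ofReal (η ^ 2 + Real.exp (-(l * ψ g)))

/-- COIN: the classes of a relation are coloured independently, the colour `Aᶜ` having
probability `q`. -/
def CoinStatement : Prop :=
  ∀ (G : Type) [Group G] [Countable G] (Y : Type) [MeasurableSpace Y] [StandardBorelSpace Y]
    [MulAction G Y] (ν : Measure Y) [IsProbabilityMeasure ν],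
    (∀ g : G, MeasurePreserving (fun y : Y => g • y) ν ν) →
    ∀ (S : Y → G → Prop), IsRel S → (∀ g, MeasurableSet {y | S y g}) →
    ∀ q : ℝ, 0 ≤ q → q ≤ 1 →
      ∃ (Ω : Type) (_ : MeasurableSpace Ω) (_ : StandardBorelSpace Ω) (_ : MulAction G Ω)
        (P : Measure Ω) (_ : IsProbabilityMeasure P) (A : Set Ω),
        (∀ g : G, MeasurePreserving (fun ω : Ω => g • ω) P P) ∧ MeasurableSet A ∧
        P Aᶜ = ENNReal.ofReal q ∧
        (∀ g : G, P {ω | ω ∉ A ∧ g • ω ∈ A} ≤ ν {y | ¬ S y g}) ∧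
        ∀ g : G, P {ω | ω ∉ A ∧ g • ω ∉ A} ≤ ENNReal.ofReal (q ^ 2) + ν {y | S y g}

/-- WALLS. -/
def WallsStatement : Prop :=
  ∀ (G : Type) [Group G] [Countable G] (T : Finset G), Subgroup.closure (T : Set G) = ⊤ →
    HasSeq G T → HasWalls G

/-! ### Relations and their cost -/

/-- `S` is generated by a graphing of cost at most `C`. -/
def Cst {G : Type} [Group G] {Y : Type} [MulAction G Y] [MeasurableSpace Y] (ν : Measure Y)
    (S : Y → G → Prop) (C : ℝ≥0∞) : Prop :=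
  ∃ (ι : Type) (_ : Countable ι) (s : ι → G) (A : ι → Set Y), (∀ i, MeasurableSet (A i)) ∧
    (∀ y g, S y g ↔ Gen s A y g) ∧ ∑' i, ν (A i) ≤ C

/-- CST: basic facts. -/
def CstStatement : Prop :=
  ∀ (G : Type) [Group G] (Y : Type) [MeasurableSpace Y] [MulAction G Y] (ν : Measure Y)
    [IsProbabilityMeasure ν] (S : Y → G → Prop) (C : ℝ≥0∞), Cst ν S C →
    IsRel S ∧
    ((∀ g : G, Measurable fun y : Y => g • y) → ∀ g, MeasurableSet {y | S y g}) ∧
    (∀ C', C ≤ C' → Cst ν S C') ∧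
    (∀ (κ : Type) [Countable κ] (t : κ → G) (B : κ → Set Y), (∀ j, MeasurableSet (B j)) →
      ∃ S' : Y → G → Prop, Cst ν S' (C + ∑' j, ν (B j)) ∧ (∀ y g, S y g → S' y g) ∧
        ∀ j, ∀ y ∈ B j, S' y (t j)) ∧
    ∀ (Ω : Type) [MeasurableSpace Ω] [MulAction G Ω] (P : Measure Ω) [IsProbabilityMeasure P],
      Cst (ν.prod P) (fun (z : Y × Ω) g => S z.1 g) C

/-- OPT: the infimum `c` of the costs, and relations close to it. -/
def OptStatement : Prop :=
  ∀ (G : Type) [Group G] [Countable G], Group.FG G → ∀ ε : ℝ≥0∞, 0 < ε → CostGe G (1 + ε) →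
    ∃ c : ℝ, 1 < c ∧ CostGe G (ENNReal.ofReal c) ∧ ∀ δ : ℝ, 0 < δ →
      ∃ (Y : Type) (_ : MeasurableSpace Y) (_ : StandardBorelSpace Y) (_ : MulAction G Y)
        (ν : Measure Y) (_ : IsProbabilityMeasure ν) (S : Y → G → Prop),
        (∀ g : G, MeasurePreserving (fun y : Y => g • y) ν ν) ∧
        Cst ν S (ENNReal.ofReal (c + δ)) ∧ ∀ᵐ y ∂ν, ∀ g : G, S y g

/-- BASE: restriction of a relation to `A`. -/
def BaseStatement : Prop :=
  ∀ (G : Type) [Group G] [Countable G] (X : Type) [MeasurableSpace X] [MulAction G X]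
    (μ : Measure X) [IsProbabilityMeasure μ],
    (∀ g : G, MeasurePreserving (fun x : X => g • x) μ μ) →
    ∀ (S₀ : X → G → Prop) (C : ℝ≥0∞), Cst μ S₀ C → (∀ᵐ x ∂μ, ∀ g : G, S₀ x g) →
    ∀ (V : Finset G) (δ : ℝ≥0∞), 0 < δ → ∃ Q : Finset G,
      ∀ (Ω : Type) [MeasurableSpace Ω] [MulAction G Ω] (P : Measure Ω) [IsProbabilityMeasure P],
        (∀ g : G, MeasurePreserving (fun ω : Ω => g • ω) P P) →
        ∀ A : Set Ω, MeasurableSet A → ∃ S : X × Ω → G → Prop, Cst (μ.prod P) S (C * P A) ∧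
          ∀ v ∈ V, (μ.prod P) {z | z.2 ∈ A ∧ ¬ S z v} ≤
            δ + ∑ q ∈ Q, P {ω | ω ∈ A ∧ q • ω ∉ A}

/-- ATT: attaching the points outside of `A` along `s`, and the missing generators. -/
def Att2Statement : Prop :=
  ∀ (G : Type) [Group G] [Countable G] (c : ℝ≥0∞), CostGe G c →
    ∀ (Y : Type) [MeasurableSpace Y] [StandardBorelSpace Y] [MulAction G Y] (ν : Measure Y)
      [IsProbabilityMeasure ν], (∀ g : G, MeasurePreserving (fun y : Y => g • y) ν ν) →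
    ∀ (S : Y → G → Prop) (C : ℝ≥0∞), Cst ν S C → ∀ A : Set Y, MeasurableSet A →
    ∀ (s : G) (T : Finset G), Subgroup.closure (T : Set G) = ⊤ →
      c ≤ C + ν Aᶜ + ∑ t ∈ T, (ν {y | y ∈ A ∧ ¬ S y t} + ν {y | y ∉ A ∧ t • y ∈ A} +
        ν {y | y ∉ A ∧ s • y ∉ A} + ν {y | y ∉ A ∧ (s * t) • y ∉ A} +
        ν {y | y ∉ A ∧ s • y ∈ A ∧ ¬ S (s • y) (s * t * s⁻¹)})

/-! ### Walks -/

section walks

variable {G : Type*} [Group G]

/-- One step of a walk: at the position `p` move by `a.1`, then cross the edge `x` (forwards if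
`a.2`, else backwards). -/
def stp (x p : G) (a : G × Bool) : G := if a.2 then x * (a.1 * p) else x⁻¹ * (a.1 * p)

/-- The base point of the edge crossed by the step. -/
def bas (x p : G) (a : G × Bool) : G := if a.2 then a.1 * p else x⁻¹ * (a.1 * p)

/-- The moves `(position, letter)` of the walk `w` starting at the position `p`; the last one
returns to the position `1`. -/
def mvs (x : G) : G → List (G × Bool) → List (G × G)
  | p, [] => [(p, p⁻¹)]
  | p, a :: w => (p, a.1) :: mvs x (stp x p a) w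

/-- The base points of the edges of the walk `w` starting at `p`. -/
def bss (x : G) : G → List (G × Bool) → List G
  | _, [] => []
  | p, a :: w => bas x p a :: bss x (stp x p a) w

end walks

/-- WALK: a relation which contains the moves and the edges of a walk contains the closing
edge. -/
def WalkStatement : Prop :=
  ∀ (G : Type) [Group G] (Y : Type) [MulAction G Y] (S : Y → G → Prop), IsRel S →
    ∀ (y : Y) (x p : G) (w : List (G × Bool)),
      (∀ m ∈ mvs x p w, S (m.1 • y) m.2) → (∀ b ∈ bss x p w, S (b • y) x) → S (p • y) p⁻¹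

/-- LAW: in a group of exponent `n` the ends `1`, `x` of an edge are connected by walks of length
at most `2 n` with moves in `K` all of whose edges are fresh (outside of `Φ`) and whose positions
avoid the cosets `K f`, `f ∈ Ψ`. -/
def LawStatement : Prop :=
  ∀ (G : Type) [Group G] (n : ℕ), 0 < n → (∀ g : G, g ^ n = 1) → ∀ K : Subgroup G,
    (K : Set G).Infinite → ∀ x : G, x ∉ K → ∀ Φ Ψ : Finset G,
    (∀ f ∈ Ψ, f ∉ K ∧ f * x⁻¹ ∉ K) →
    ∃ w : List (G × Bool), w.length ≤ 2 * n ∧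
      (∀ m ∈ mvs x x w, m.2 ∈ K ∧ ∀ f ∈ Ψ, m.1 * f⁻¹ ∉ K) ∧ ∀ b ∈ bss x x w, b ∉ Φ

/-- SPR: sprinkling. The relation `S'` on `Y × Lab G` contains `S` and the edges `x` at the
points of label less than `ε`; if each of the `N` walks is usable outside a part of `D` of
measure `β` then `S'` contains most edges `x` over `D`. -/
def SprStatement : Prop :=
  ∀ (G : Type) [Group G] [Countable G] (Y : Type) [MeasurableSpace Y] [MulAction G Y]
    (ν : Measure Y) [IsProbabilityMeasure ν],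
    (∀ g : G, MeasurePreserving (fun y : Y => g • y) ν ν) →
    ∀ S : Y → G → Prop, IsRel S → (∀ g, MeasurableSet {y | S y g}) →
    ∀ (x : G) (ε : ℝ), 0 ≤ ε → ε ≤ 1 → ∀ (L N : ℕ) (w : Fin N → List (G × Bool)),
      (∀ r, (w r).length ≤ L) →
      (∀ r r', r' ≠ r → ∀ b ∈ bss x x (w r), b ∉ bss x x (w r')) →
    ∀ D : Set Y, MeasurableSet D → ∀ β : ℝ≥0∞,
      (∀ r, ν {y | y ∈ D ∧ ∃ m ∈ mvs x x (w r), ¬ S (m.1 • y) m.2} ≤ β) →
    ∀ S' : Y × Lab G → G → Prop, IsRel S' → (∀ z g, S z.1 g → S' z g) →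
      (∀ z : Y × Lab G, z.2 1 < ε → S' z x) →
      (ν.prod (lam G)) {z | z.1 ∈ D ∧ ¬ S' z x} ≤
        2 * β + ENNReal.ofReal ((1 - ε ^ L) ^ (N / 2))

/-! ### States -/

/-- A state: an action with a set `A` (with given two point bounds) and a relation of cost at
most `C` which contains the edges `i ∈ I` over `A` and the edges `j ∈ J` over
`A ∩ s • Aᶜ`, up to given errors. -/
def St {G : Type} [Group G] (f₁ f₂ : G → ℝ≥0∞) (a C : ℝ≥0∞) (s : G)
    (I J : List (G × ℝ≥0∞)) : Prop :=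
  ∃ (Y : Type) (_ : MeasurableSpace Y) (_ : StandardBorelSpace Y) (_ : MulAction G Y)
    (ν : Measure Y) (_ : IsProbabilityMeasure ν) (A : Set Y) (S : Y → G → Prop),
    (∀ g : G, MeasurePreserving (fun y : Y => g • y) ν ν) ∧ MeasurableSet A ∧ Cst ν S C ∧
    ν Aᶜ ≤ a ∧ (∀ g : G, ν {y | y ∉ A ∧ g • y ∈ A} ≤ f₁ g) ∧
    (∀ g : G, ν {y | y ∉ A ∧ g • y ∉ A} ≤ f₂ g) ∧
    (∀ i ∈ I, ν {y | y ∈ A ∧ ¬ S y i.1} ≤ i.2) ∧
    ∀ j ∈ J, ν {y | s⁻¹ • y ∉ A ∧ y ∈ A ∧ ¬ S y j.1} ≤ j.2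

/-- ADDI: a new edge over `A`, by walks which stay near. -/
def AddIStatement : Prop :=
  ∀ (G : Type) [Group G] [Countable G] (f₁ f₂ : G → ℝ≥0∞) (a C : ℝ≥0∞) (s : G)
    (I J : List (G × ℝ≥0∞)), St f₁ f₂ a C s I J →
    ∀ (x : G) (ε : ℝ), 0 ≤ ε → ε ≤ 1 → ∀ (L N : ℕ) (b δ : ℝ≥0∞) (w : Fin N → List (G × Bool)),
      (∀ r, (w r).length ≤ L) →
      (∀ r, ∀ m ∈ mvs x x (w r), f₁ m.1⁻¹ ≤ b ∧ (m.2, δ) ∈ I) →
      (∀ r r', r' ≠ r → ∀ b' ∈ bss x x (w r), b' ∉ bss x x (w r')) →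
      St f₁ f₂ a (C + ENNReal.ofReal ε) s
        ((x, 2 * ((L + 1) * (b + δ)) + ENNReal.ofReal ((1 - ε ^ L) ^ (N / 2))) :: I) J

/-- ADDJ: a new edge over `A ∩ s • Aᶜ`, by walks which stay far from `s⁻¹`. -/
def AddJStatement : Prop :=
  ∀ (G : Type) [Group G] [Countable G] (f₁ f₂ : G → ℝ≥0∞) (a C : ℝ≥0∞) (s : G)
    (I J : List (G × ℝ≥0∞)), St f₁ f₂ a C s I J →
    ∀ (x : G) (ε : ℝ), 0 ≤ ε → ε ≤ 1 → ∀ (L N : ℕ) (b δ : ℝ≥0∞) (w : Fin N → List (G × Bool)),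
      (∀ r, (w r).length ≤ L) →
      (∀ r, ∀ m ∈ mvs x x (w r), f₂ (m.1 * s) ≤ b ∧ (m.2, δ) ∈ I) →
      (∀ r r', r' ≠ r → ∀ b' ∈ bss x x (w r), b' ∉ bss x x (w r')) →
      St f₁ f₂ a (C + ENNReal.ofReal ε) s I
        ((x, 2 * ((L + 1) * (b + δ)) + ENNReal.ofReal ((1 - ε ^ L) ^ (N / 2))) :: J)

/-- GERM: the walks. First the number `c` of auxiliary elements `k i`, the finite set `V` and the
bound `R` are fixed, then `s` can be chosen arbitrarily far. -/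
def GermStatement : Prop :=
  ∀ (G : Type) [Group G] [Countable G] [Infinite G] (n : ℕ), 0 < n → (∀ g : G, g ^ n = 1) →
    ∀ ψ : G → ℝ, (∀ g, 0 ≤ ψ g) → (∀ g h, ψ (g * h) ≤ ψ g + ψ h) → (∀ g, ψ g⁻¹ = ψ g) →
      (∀ M : ℝ, ∃ g, M ≤ ψ g) →
    ∀ (T : Finset G) (N₁ : ℕ) (N₂ : ℕ → ℕ), ∃ (c : ℕ) (V : Finset G) (R : ℝ),
      ∀ R' : ℝ, ∃ (s : G) (k : Fin c → G),
        R' ≤ ψ s ∧ (∀ t ∈ T, R' ≤ ψ (s * t)) ∧
        (∀ i, k i ∈ V ∨ ∃ w : Fin (N₂ c) → List (G × Bool),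
          (∀ r, (w r).length ≤ 2 * n) ∧
          (∀ r, ∀ m ∈ mvs (k i) (k i) (w r), m.2 ∈ V ∧ ψ m.1 ≤ R) ∧
          ∀ r r', r' ≠ r → ∀ b ∈ bss (k i) (k i) (w r), b ∉ bss (k i) (k i) (w r')) ∧
        ∀ t ∈ T, (∃ i, k i = s * t * s⁻¹) ∨ ∃ w : Fin N₁ → List (G × Bool),
          (∀ r, (w r).length ≤ 2 * n) ∧
          (∀ r, ∀ m ∈ mvs (s * t * s⁻¹) (s * t * s⁻¹) (w r),
            (∃ i, k i = m.2) ∧ R' ≤ ψ (m.1 * s)) ∧
          ∀ r r', r' ≠ r → ∀ b ∈ bss (s * t * s⁻¹) (s * t * s⁻¹) (w r),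
            b ∉ bss (s * t * s⁻¹) (s * t * s⁻¹) (w r')

/-- PART2: walls, bounded exponent and cost greater than one are incompatible. -/
def Part2Statement : Prop :=
  ∀ (G : Type) [Group G] [Countable G] [Infinite G], Group.FG G → ∀ n : ℕ, 0 < n →
    (∀ g : G, g ^ n = 1) → HasWalls G → ∀ ε : ℝ≥0∞, 0 < ε → ¬ CostGe G (1 + ε)

end Pool.Agent.Lib.MP_90732c_al.Cx
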