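import Pool.Agent.Lib.MP_90732c_al.Cx.Dstm
import Pool.Agent.Lib.MP_90732c_al.Cx.Two
import Pool.Agent.Lib.MP_90732c_al.Law

/-! Groups of bounded exponent have cost one: the sequence of relations, end of part I. -/

set_option autoImplicit false

open MeasureTheory
open scoped ENNReal Pointwise

namespace Pool.Agent.Lib.MP_90732c_al.Cx

open Pool.Agent.Lib.MP_90732c_al.Ab

variable {G : Type} [Group G]

/-- The trivial relation. -/
theorem hasDispF_zero [Infinite G] {d : ℕ} (t : Fin d → G) :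
    HasDispF t 1 fun g => (Measure.dirac () : Measure Unit) {_y | g = 1} := by
  classical
  refine ⟨Unit, inferInstance, inferInstance, inferInstance, Measure.dirac (), inferInstance,
    fun _ g => g = 1, ⟨?_, ⟨?_, ?_, ?_⟩, ?_⟩, ?_, ?_, fun j => prob_le_one, fun _ => rfl⟩
  · intro g
    exact MeasurePreserving.id _
  · intro _; rfl
  · rintro _ g h rfl rfl; simp
  · rintro _ g rfl; simp
  · intro g; exact MeasurableSet.const _
  · intro X e he
    obtain ⟨g, hg⟩ := Infinite.exists_notMem_finset (X.image fun x => x⁻¹)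
    refine ⟨g, fun x hx => ?_⟩
    have h1 : {_y : Unit | g * x = 1} = ∅ := by
      rw [Set.eq_empty_iff_forall_notMem]
      intro _ h2
      apply hg
      rw [Finset.mem_image]
      exact ⟨x, hx, (eq_inv_of_mul_eq_one_left h2).symm⟩
    rw [h1, measure_empty]
    exact zero_le
  · rintro y g rfl
    exact Gen.one y

/-- The chain of relations. -/
theorem exists_chain (H : DstmStatement) [Countable G] [Infinite G] {ε : ℝ≥0∞}
    (hc : CostGe G (1 + ε)) {d : ℕ} (t : Fin d → G) (ht : Subgroup.closure (Set.range t) = ⊤)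
    {N : ℕ} (hN : 0 < N) (hd : (d : ℝ≥0∞) * ENNReal.ofReal (1 / N) < ε) :
    ∃ f : ℕ → G → ℝ≥0∞, (∀ i, HasDispF t (ENNReal.ofReal (1 - 1 / N) ^ i) (f i)) ∧
      ∀ i g, f i g ≤ f (i + 1) g := by
  classical
  let P : Type := {p : ℕ × (G → ℝ≥0∞) // HasDispF t (ENNReal.ofReal (1 - 1 / N) ^ p.1) p.2}
  have hstep : ∀ p : P, ∃ q : P, q.1.1 = p.1.1 + 1 ∧ ∀ g, p.1.2 g ≤ q.1.2 g := by
    rintro ⟨⟨i, f⟩, hp⟩
    obtain ⟨f', h1, h2⟩ := H G ε hc d t ht N hN hd _ f hp
    refine ⟨⟨(i + 1, f'), ?_⟩, rfl, h1⟩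
    rw [pow_succ']
    exact h2
  choose nx hnx1 hnx2 using hstep
  have h0 : HasDispF t (ENNReal.ofReal (1 - 1 / N) ^ 0)
      fun g => (Measure.dirac () : Measure Unit) {_y | g = 1} := by
    rw [pow_zero]
    exact hasDispF_zero t
  let p : ℕ → P := fun n => nx^[n] ⟨(0, _), h0⟩
  have hp : ∀ n, (p n).1.1 = n := by
    intro n
    induction n with
    | zero => rfl
    | succ n ih =>
      change (nx^[n + 1] _).1.1 = _
      rw [Function.iterate_succ_apply', hnx1]
      change (p n).1.1 + 1 = n + 1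
      rw [ih]
  refine ⟨fun n => (p n).1.2, fun n => ?_, fun n g => ?_⟩
  · have h1 := (p n).2
    rw [hp n] at h1
    exact h1
  · have h1 := hnx2 (p n) g
    have h2 : p (n + 1) = nx (p n) := Function.iterate_succ_apply' nx n _
    change (p n).1.2 g ≤ (p (n + 1)).1.2 g
    rw [h2]
    exact h1

/-- **Part I.** -/
theorem hasSeq_of_cost (H : DstmStatement) [Countable G] {c : ℝ} (hc1 : 1 < c)
    (hc : CostGe G (ENNReal.ofReal c)) (T : Finset G) (hT : Subgroup.closure (T : Set G) = ⊤) :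
    HasSeq G T := by
  classical
  have : Infinite G := infinite_of_cost hc hc1.le T hT
  obtain ⟨d, t, ht⟩ : ∃ (d : ℕ) (t : Fin d → G), Set.range t = (T : Set G) := by
    refine ⟨T.card, fun i => (T.equivFin.symm i : G), ?_⟩
    ext g
    constructor
    · rintro ⟨i, rfl⟩
      exact (T.equivFin.symm i).2
    · intro hg
      exact ⟨T.equivFin ⟨g, hg⟩, by simp⟩
  have htop : Subgroup.closure (Set.range t) = ⊤ := by rw [ht, hT]
  -- the number of colours
  obtain ⟨N₀, hN₀⟩ := exists_nat_gt ((d : ℝ) / (c - 1))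
  set N : ℕ := N₀ + 1 with hN
  have hNpos : 0 < N := Nat.succ_pos _
  have hN' : (0 : ℝ) < N := by exact_mod_cast hNpos
  have hc' : CostGe G (1 + ENNReal.ofReal (c - 1)) := by
    have : (1 : ℝ≥0∞) + ENNReal.ofReal (c - 1) = ENNReal.ofReal c := by
      rw [← ENNReal.ofReal_one, ← ENNReal.ofReal_add zero_le_one (by linarith)]
      congr 1
      ring
    rw [this]
    exact hc
  have hd : (d : ℝ≥0∞) * ENNReal.ofReal (1 / N) < ENNReal.ofReal (c - 1) := by
    rw [← ENNReal.ofReal_natCast, ← ENNReal.ofReal_mul (Nat.cast_nonneg d),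
      ENNReal.ofReal_lt_ofReal_iff (by linarith)]
    rw [div_lt_iff₀ (by linarith)] at hN₀
    rw [mul_one_div, div_lt_iff₀ hN']
    have h1 : (N : ℝ) = N₀ + 1 := by rw [hN]; push_cast; ring
    rw [h1]
    nlinarith
  obtain ⟨f, hf1, hf2⟩ := exists_chain H hc' t htop hNpos hd
  have hmono : ∀ g, Monotone fun i => f i g := fun g => monotone_nat_of_le_succ fun i => hf2 i g
  -- the subsequence
  set q : ℝ≥0∞ := ENNReal.ofReal (1 - 1 / N) with hq
  have hq1 : q < 1 := by
    rw [hq, ← ENNReal.ofReal_one, ENNReal.ofReal_lt_ofReal_iff one_pos]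
    have : (0 : ℝ) < 1 / N := by positivity
    linarith
  obtain ⟨m, hm⟩ := ((ENNReal.tendsto_pow_atTop_nhds_zero_of_lt_one hq1).eventually
    (gt_mem_nhds (show (0 : ℝ≥0∞) < 2⁻¹ by simp))).exists
  have hcut : ∀ i, q ^ (m * i) ≤ (2⁻¹ : ℝ≥0∞) ^ i := by
    intro i
    rw [pow_mul]
    exact pow_le_pow_left' hm.le i
  choose X i1 i2 i3 μ i4 S h1 h2 h3 h4 h5 using fun i => hf1 (m * i)
  refine ⟨X, i1, i2, i3, μ, i4, S, fun i g => (h1 i).mp g, fun i => (h1 i).rel,
    fun i g => (h1 i).meas g, fun i s hs => ?_, fun k => ?_⟩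
  · obtain ⟨j, rfl⟩ : s ∈ Set.range t := by rw [ht]; exact hs
    exact (h4 i j).trans (hcut i)
  · obtain ⟨g, hg⟩ := h2 k {1} 2⁻¹ (by simp)
    refine ⟨g, fun i hi => ?_⟩
    have h6 := hg 1 (Finset.mem_singleton_self _)
    rw [mul_one, ← h5 k g] at h6
    rw [← h5 i g]
    exact (hmono g (Nat.mul_le_mul_left m hi.le)).trans h6

end Pool.Agent.Lib.MP_90732c_al.Cx
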