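import Pool.Agent.Lib.MP_90732c_al.Cx.Defs

/-! Groups of bounded exponent have cost one: the statements of the modules. -/

set_option autoImplicit false

open MeasureTheory
open scoped ENNReal Pointwise

namespace Pool.Agent.Lib.MP_90732c_al.Cx

open Pool.Agent.Lib.MP_90732c_al.Ab

/-! ### Part 1: class labels -/

/-- LAWEQ: the law of `u ∘ r` depends only on the fibres of `r`. -/
def LawEqStatement : Prop :=
  ∀ (G : Type) [Group G] [Countable G] (r r' : G → G),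
    (∀ h h', r h = r h' ↔ r' h = r' h') →
    (lam G).map (fun u : Lab G => ((fun h => u (r h)) : Lab G)) =
      (lam G).map (fun u : Lab G => ((fun h => u (r' h)) : Lab G))

/-- CLAB: class labels exist. -/
def ClabStatement : Prop :=
  ∀ (G : Type) [Group G] [Countable G] (Y : Type) [MeasurableSpace Y] [MulAction G Y]
    (ν : Measure Y) [IsProbabilityMeasure ν] (S : Y → G → Prop), Sys ν S →
    ∃ (ν' : Measure (Y × Lab G)) (ℓ : Y × Lab G → ℝ) (rep : Y → G → G),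
      IsProbabilityMeasure ν' ∧ IsClab ν S ν' ℓ rep

/-- CLFST: the first marginal and the law of one label. -/
def ClfstStatement : Prop :=
  ∀ (G : Type) [Group G] [Countable G] (Y : Type) [MeasurableSpace Y] [MulAction G Y]
    (ν : Measure Y) [IsProbabilityMeasure ν] (S : Y → G → Prop) (ν' : Measure (Y × Lab G))
    (ℓ : Y × Lab G → ℝ) (rep : Y → G → G), IsClab ν S ν' ℓ rep →
    IsProbabilityMeasure ν' ∧ (∀ E : Set Y, MeasurableSet E → ν' {z | z.1 ∈ E} = ν E) ∧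
      ∀ a : ℝ, 0 ≤ a → a ≤ 1 → ν' {z | ℓ z < a} = ENNReal.ofReal a

/-- CUT: inequivalent points have the same colour with probability `1 / N`. -/
def CutStatement : Prop :=
  ∀ (G : Type) [Group G] [Countable G] (Y : Type) [MeasurableSpace Y] [MulAction G Y]
    (ν : Measure Y) [IsProbabilityMeasure ν] (S : Y → G → Prop) (ν' : Measure (Y × Lab G))
    (ℓ : Y × Lab G → ℝ) (rep : Y → G → G), Sys ν S → IsClab ν S ν' ℓ rep →
    ∀ (N : ℕ), 0 < N → ∀ g : G,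
      ν' {z | ⌊(N : ℝ) * ℓ z⌋₊ ≠ ⌊(N : ℝ) * ℓ (g • z)⌋₊} ≤
        ENNReal.ofReal (1 - 1 / N) * ν {y | ¬ S y g}

/-- MIX: the colours are independent of invariant sets if `S` is dispersed. -/
def MixStatement : Prop :=
  ∀ (G : Type) [Group G] [Countable G] (Y : Type) [MeasurableSpace Y] [MulAction G Y]
    (ν : Measure Y) [IsProbabilityMeasure ν] (S : Y → G → Prop) (ν' : Measure (Y × Lab G))
    (ℓ : Y × Lab G → ℝ) (rep : Y → G → G), Sys ν S → IsClab ν S ν' ℓ rep → Dispersed ν S →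
    ∀ (T : Set (Y × Lab G)), MeasurableSet T → (∀ (g : G) z, g • z ∈ T ↔ z ∈ T) →
    ∀ (N : ℕ), 0 < N → ∀ q : ℕ,
      ν' (T ∩ {z | ⌊(N : ℝ) * ℓ z⌋₊ = q}) ≤ ENNReal.ofReal (1 / N) * ν' T

/-- ATT: all attempts fail with small probability. -/
def AttStatement : Prop :=
  ∀ (G : Type) [Group G] [Countable G] (Y : Type) [MeasurableSpace Y] [MulAction G Y]
    (ν : Measure Y) [IsProbabilityMeasure ν] (S : Y → G → Prop) (ν' : Measure (Y × Lab G))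
    (ℓ : Y × Lab G → ℝ) (rep : Y → G → G), Sys ν S → IsClab ν S ν' ℓ rep →
    ∀ (R : ℕ) (F D : Fin R → Finset G) (E : Set Y), MeasurableSet E →
    (∀ y ∈ E, ∀ m m', m ≠ m' → ∀ x ∈ F m, ∀ x' ∈ F m', ¬ Eqv S y x x') →
    (∀ m m', m ≠ m' → Disjoint (D m) (D m')) →
    ∀ (a p : ℝ), 0 ≤ a → a ≤ 1 → 0 ≤ p → p ≤ 1 →
    ∀ (k k' : ℕ), (∀ m, (F m).card ≤ k) → (∀ m, (D m).card ≤ k') →
      (ν'.prod (lam G)) {z : (Y × Lab G) × Lab G | z.1.1 ∈ E ∧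
        ∀ m, ¬ ((∀ x ∈ F m, ℓ (x • z.1) < a) ∧ ∀ x ∈ D m, (x • z.2) 1 < p)} ≤
        ENNReal.ofReal ((1 - a ^ k * p ^ k') ^ R)

/-! ### Part 2: the colour process -/

/-- WGT: an invariant weight on the classes. -/
def WgtStatement : Prop :=
  ∀ (G : Type) [Group G] [Countable G] (Y : Type) [MeasurableSpace Y] [MulAction G Y]
    (ν : Measure Y) [IsProbabilityMeasure ν] (S : Y → G → Prop), Sys ν S → ¬ Dispersed ν S →
    ∃ (w : Y → ℝ) (M : ℕ), Measurable w ∧ (∀ᵐ y ∂ν, ∀ g, S y g → w (g • y) = w y) ∧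
      (∀ᵐ y ∂ν, ∀ s : Finset G, (∀ x ∈ s, ∀ x' ∈ s, Eqv S y x x' → x = x') →
        ∑ x ∈ s, w (x • y) ≤ M) ∧ 0 < ∫ y, w y ∂ν

/-- FEW: a set of finitely many classes of one colour. -/
def FewStatement : Prop :=
  ∀ (G : Type) [Group G] [Countable G] (Y : Type) [MeasurableSpace Y] [MulAction G Y]
    (ν : Measure Y) [IsProbabilityMeasure ν] (S : Y → G → Prop), Sys ν S → ¬ Dispersed ν S →
    ∀ (c : Y → ℕ), Measurable c → (∀ y g, S y g → c (g • y) = c y) →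
    ∃ (B : Set Y) (q M : ℕ), MeasurableSet B ∧ 0 < ν B ∧ (∀ y ∈ B, c y = q) ∧
      (∀ y g, S y g → (g • y ∈ B ↔ y ∈ B)) ∧ Few ν S B M

/-- PAR: there are infinitely many parallel edges between two of finitely many classes. -/
def ParStatement : Prop :=
  ∀ (G : Type) [Group G] [Countable G] [Infinite G] (Y : Type) [MeasurableSpace Y]
    [MulAction G Y] (ν : Measure Y) [IsProbabilityMeasure ν] (S : Y → G → Prop), Sys ν S →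
    ∀ (B : Set Y) (M : ℕ), MeasurableSet B → (∀ y g, S y g → (g • y ∈ B ↔ y ∈ B)) →
    Few ν S B M → ∀ᵐ y ∂ν, ∀ μ : G, y ∈ B → μ • y ∈ B →
      {x : G | S y x ∧ S (μ • y) (μ * x * μ⁻¹)}.Infinite

/-- HSF: a cheap graphing from a set of finitely many classes of small measure. -/
def HsfStatement : Prop :=
  ∀ (G : Type) [Group G] [Countable G] [Infinite G] (Y : Type) [MeasurableSpace Y]
    [StandardBorelSpace Y] [MulAction G Y] (ν : Measure Y) [IsProbabilityMeasure ν]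
    (S : Y → G → Prop), Sys ν S →
    ∀ (d : ℕ) (t : Fin d → G), (∀ y g, S y g → Gen t (fun j => {y | S y (t j)}) y g) →
    ∀ (B : Set Y) (M : ℕ), MeasurableSet B → 0 < ν B →
    (∀ y g, S y g → (g • y ∈ B ↔ y ∈ B)) → Few ν S B M →
    ∀ θ : ℝ≥0∞, ν B ≤ θ * ν {y | ∃ g : G, g • y ∈ B} →
    ∀ p : ℝ≥0∞, 0 < p → HasState t (d * θ + p) 0

/-- COL: the relation generated by Cayley edges between points of the same colour. -/
def ColStatement : Prop :=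
  ∀ (G : Type) [Group G] [Countable G] (Y : Type) [MeasurableSpace Y] [MulAction G Y]
    (ν : Measure Y) (_ : ∀ g : G, MeasurePreserving (fun y : Y => g • y) ν ν)
    (d : ℕ) (t : Fin d → G) (c : Y → ℕ), Measurable c →
    Sys ν (Sc t c) ∧ (∀ y g, Sc t c y g → c (g • y) = c y) ∧
      (∀ y g, Sc t c y g → Gen t (fun j => {y | Sc t c y (t j)}) y g) ∧
      (∀ y j, ¬ Sc t c y (t j) → c y ≠ c (t j • y)) ∧
      ∀ S : Y → G → Prop, (∀ y g, S y g → Gen t (fun j => {y | S y (t j)}) y g) →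
        (∀ y g, S y g → c (g • y) = c y) → ∀ y g, S y g → Sc t c y g

/-- DST: one step of the colour process. -/
def DstStatement : Prop :=
  ∀ (G : Type) [Group G] [Countable G] [Infinite G] (ε : ℝ≥0∞), CostGe G (1 + ε) →
    ∀ (d : ℕ) (t : Fin d → G), Subgroup.closure (Set.range t) = ⊤ →
    ∀ (N : ℕ), 0 < N → (d : ℝ≥0∞) * ENNReal.ofReal (1 / N) < ε →
    ∀ δ : ℝ≥0∞, HasDisp t δ → HasDisp t (ENNReal.ofReal (1 - 1 / N) * δ)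

/-- DSP: dispersed relations with small cut. -/
def DspStatement : Prop :=
  ∀ (G : Type) [Group G] [Countable G] [Infinite G] (ε : ℝ≥0∞), 0 < ε → CostGe G (1 + ε) →
    ∀ (d : ℕ) (t : Fin d → G), Subgroup.closure (Set.range t) = ⊤ →
    ∀ δ : ℝ≥0∞, 0 < δ → HasDisp t δ

/-! ### Part 3: amplification -/

/-- POW: independent copies. -/
def PowStatement : Prop :=
  ∀ (G : Type) [Group G] [Countable G] (Y : Type) [MeasurableSpace Y] [MulAction G Y]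
    (ν : Measure Y) [IsProbabilityMeasure ν] (S : Y → G → Prop), Sys ν S → ∀ r : ℕ,
    Sys (Measure.pi fun _ : Fin r => ν) (fun (y : Fin r → Y) (g : G) => ∀ i, S (y i) g) ∧
      ∀ g : G, (Measure.pi fun _ : Fin r => ν) {y : Fin r → Y | ∀ i, S (y i) g} =
        (ν {y | S y g}) ^ r

/-- GAP: a good number of copies. -/
def GapStatement : Prop :=
  ∀ (η : ℝ), 0 < η → η < 1 → ∀ m : ℕ, ∃ δ : ℝ, 0 < δ ∧
    ∀ (ι : Type) (W : Finset ι) (f : ι → ℝ), W.card ≤ m → (∀ w, 0 ≤ f w) → (∀ w, f w ≤ 1) →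
      ∃ r : ℕ, (∀ w ∈ W, f w ^ r ≤ η ∨ 1 - η ≤ f w ^ r) ∧
        (∀ w, 1 - δ ≤ f w → 1 - η ≤ f w ^ r) ∧ ∀ w, f w ≤ 1 / 2 → f w ^ r ≤ η

/-- FAR: elements which are far from each other. -/
def FarStatement : Prop :=
  ∀ (G : Type) [Group G] [Countable G] (Y : Type) [MeasurableSpace Y] [MulAction G Y]
    (ν : Measure Y) [IsProbabilityMeasure ν] (S : Y → G → Prop), Sys ν S → Dispersed ν S →
    ∀ (r : ℕ) (e : ℝ≥0∞), 0 < e → ∃ s : Fin r → G, (∀ i, ν {y | S y (s i)} ≤ e) ∧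
      ∀ i j, i ≠ j → ν {y | S y (s j * (s i)⁻¹)} ≤ e

/-- AMP: amplification. -/
def AmpStatement : Prop :=
  ∀ (G : Type) [Group G] [Countable G] (d : ℕ) (t : Fin d → G),
    Subgroup.closure (Set.range t) = ⊤ → (∀ δ : ℝ≥0∞, 0 < δ → HasDisp t δ) →
    ∀ (K : Finset G) (r L : ℕ) (η : ℝ≥0∞), 0 < η →
      ∃ (Y : Type) (_ : MeasurableSpace Y) (_ : StandardBorelSpace Y) (_ : MulAction G Y)
        (ν : Measure Y) (_ : IsProbabilityMeasure ν) (S : Y → G → Prop) (s : Fin r → G),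
        Amp ν S K s L η

/-! ### Part 4: the graphing -/

/-- GRA: the graphing. -/
def GraStatement : Prop :=
  ∀ (G : Type) [Group G] [Countable G] (Z : Type) [MeasurableSpace Z] [MulAction G Z]
    (P : Measure Z) [IsProbabilityMeasure P]
    (_ : ∀ g : G, MeasurePreserving (fun z : Z => g • z) P P)
    (d : ℕ) (t : Fin d → G) (Act : Set Z), MeasurableSet Act →
    ∀ (r : ℕ) (s : Fin r → G) (κ : Type) [Countable κ] (m : κ → G) (C : κ → Set Z),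
    (∀ i, MeasurableSet (C i)) →
    ∃ S₂ : Z → G → Prop, Exc P S₂ (d * P Act + ∑' i, P (C i)) ∧
      (∀ z, z ∉ Act → (∃ i, s i • z ∈ Act) → ∃ i, s i • z ∈ Act ∧ S₂ z (s i)) ∧
      (∀ z j, z ∈ Act → t j • z ∈ Act → S₂ z (t j)) ∧ ∀ i, ∀ z ∈ C i, S₂ z (m i)

/-- KMV: moves along Cayley paths. -/
def KmvStatement : Prop :=
  ∀ (G : Type) [Group G] [Countable G] (Z : Type) [MeasurableSpace Z] [MulAction G Z]
    (P : Measure Z) [IsProbabilityMeasure P] (S₁ S₂ : Z → G → Prop), Sys P S₁ → Sys P S₂ →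
    ∀ (d : ℕ) (t : Fin d → G) (Act : Set Z), MeasurableSet Act →
    (∀ z g, S₁ z g → z ∈ Act → g • z ∈ Act) →
    (∀ z j, z ∈ Act → t j • z ∈ Act → S₂ z (t j)) →
    ∀ (η : ℝ≥0∞), (∀ j, P {z | ¬ S₁ z (t j)} ≤ η) →
    ∀ (l : ℕ) (k : G), k ∈ words t l → P {z | z ∈ Act ∧ ¬ S₂ z k} ≤ l * η

/-- PTH: the path. -/
def PthStatement : Prop :=
  ∀ (G : Type) [Group G] (Z : Type) [MulAction G Z] (S₂ : Z → G → Prop), IsRel S₂ →
    ∀ (z : Z) (μ k k' : G) (j : ℕ), 2 ≤ j → S₂ z (k' * k⁻¹) →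
    (∀ i, 1 ≤ i → i < j → S₂ (((k' * μ) ^ i * (k * μ)⁻¹) • z) μ) →
    (∀ i, 1 ≤ i → i < j → S₂ (((k' * μ) ^ (i + 1) * (k * μ)⁻¹) • z) k'⁻¹) →
    S₂ (((k * μ) ^ (j - 1)) • z) ((k' * μ) ^ j * ((k * μ) ^ j)⁻¹) →
    (∀ i, 1 ≤ i → i < j → S₂ (((k * μ) ^ i) • z) μ) →
    (∀ i, 1 ≤ i → i < j → S₂ (((k * μ) ^ i) • z) k⁻¹) → S₂ z μ

/-- SEL: the selection of the pairs. -/
def SelStatement : Prop :=
  ∀ (n R : ℕ), 2 ≤ n → ∃ N : ℕ, ∀ (G : Type) [Group G], (∀ x : G, x ^ n = 1) →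
    ∀ (μ : G) (E : Setoid G) (U : Finset G), N ≤ U.card →
    (∀ k ∈ U, ∀ k₁ ∈ U, ∀ k₂ ∈ U, ∀ i, i < n →
      E ((k₁ * μ) ^ i * (k * μ)⁻¹) ((k₂ * μ) ^ i * (k * μ)⁻¹) →
        E ((k₁ * μ) ^ i) ((k₂ * μ) ^ i)) →
    ∃ j, 2 ≤ j ∧ j ≤ n ∧ ∃ k k' : Fin R → G, (∀ m, k m ∈ U ∧ k' m ∈ U) ∧
      (∀ m, E ((k m * μ) ^ j) ((k' m * μ) ^ j)) ∧
      (∀ m m', m' < m → ∀ x ∈ foot μ (k m) (k' m) 2 j, ∀ x' ∈ foot μ (k m') (k' m') 1 j,
        ¬ E x x') ∧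
      ∀ m m', m' < m → Disjoint (foot μ (k m) (k' m) 1 j) (foot μ (k m') (k' m') 1 j)

/-- STG: one of the attempts succeeds. -/
def StgStatement : Prop :=
  ∀ (G : Type) [Group G] [Countable G] (Z : Type) [MeasurableSpace Z] [MulAction G Z]
    (P : Measure Z) [IsProbabilityMeasure P] (S₁ S₂ : Z → G → Prop), Sys P S₁ → Sys P S₂ →
    ∀ (lab bit : Z → ℝ) (a p : ℝ), Measurable lab → Measurable bit →
    (∀ z g, S₁ z g → lab (g • z) = lab z) →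
    ∀ (μ : G), (∀ z, bit z < p → S₂ z μ) →
    ∀ (n R j : ℕ), 2 ≤ j → j ≤ n → ∀ (k k' : Fin R → G) (F : Fin R → Finset G)
      (E : Set Z), MeasurableSet E →
    (∀ z ∈ E, ∀ m, ∀ x, x ∈ foot μ (k m) (k' m) 1 j ∨ x = (k' m * μ) ^ j * (k m * μ)⁻¹ →
      (∃ f ∈ F m, Eqv S₁ z f x) ∨ Eqv S₁ z 1 x ∨ Eqv S₁ z μ x) →
    ∀ (ε₀ ε β : ℝ≥0∞), P Eᶜ ≤ ε₀ →
    (∀ m, P {z | lab z < a ∧ ¬ S₂ z (k m)⁻¹} ≤ ε) →
    (∀ m, P {z | lab z < a ∧ ¬ S₂ z (k' m)⁻¹} ≤ ε) →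
    (∀ m, P {z | lab z < a ∧ ¬ S₂ z (k' m * (k m)⁻¹)} ≤ ε) →
    (∀ m, P {z | lab z < a ∧ ¬ S₂ z ((k' m * μ) ^ j * ((k m * μ) ^ j)⁻¹)} ≤ ε) →
    P {z | z ∈ E ∧ ∀ m, ¬ ((∀ x ∈ F m, lab (x • z) < a) ∧
      ∀ x ∈ foot μ (k m) (k' m) 1 j, bit (x • z) < p)} ≤ β →
    P {z | lab z < a ∧ lab (μ • z) < a ∧ ¬ S₂ z μ} ≤ β + ε₀ + (R * (4 * n) : ℕ) * ε

/-- CON: connecting the generators. -/
def ConStatement : Prop :=
  ∀ (G : Type) [Group G] [Countable G] (Z : Type) [MeasurableSpace Z] [MulAction G Z]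
    (P : Measure Z) [IsProbabilityMeasure P] (S₂ : Z → G → Prop), Sys P S₂ →
    ∀ (Act : Set Z), MeasurableSet Act → ∀ (r : ℕ) (s : Fin (r + 1) → G), s 0 = 1 →
    (∀ z, z ∉ Act → (∃ i, s i • z ∈ Act) → ∃ i, s i • z ∈ Act ∧ S₂ z (s i)) →
    ∀ (g : G) (ε ε' : ℝ≥0∞), P {z | ∀ i, s i • z ∉ Act} ≤ ε →
    (∀ i i', P {z | z ∈ Act ∧ (s i' * g * (s i)⁻¹) • z ∈ Act ∧ ¬ S₂ z (s i' * g * (s i)⁻¹)} ≤ ε') →
    P {z | ¬ S₂ z g} ≤ 2 * ε + ((r + 1) * (r + 1) : ℕ) * ε'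

/-- STP1: moves inside a class. -/
def Step1Statement : Prop :=
  ∀ (n R : ℕ), 2 ≤ n → ∃ N : ℕ, ∀ (G : Type) [Group G] [Countable G], (∀ x : G, x ^ n = 1) →
    ∀ (Y : Type) [MeasurableSpace Y] [MulAction G Y] (ν : Measure Y) [IsProbabilityMeasure ν]
    (S : Y → G → Prop) (ν' : Measure (Y × Lab G)) (ℓ : Y × Lab G → ℝ) (rep : Y → G → G),
    Sys ν S → IsClab ν S ν' ℓ rep →
    ∀ S₂ : (Y × Lab G) × Lab G → G → Prop, Sys (ν'.prod (lam G)) S₂ →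
    ∀ (a p : ℝ), 0 ≤ a → a ≤ 1 → 0 ≤ p → p ≤ 1 → ∀ (q : G) (U : Finset G), N ≤ U.card →
    (∀ z : (Y × Lab G) × Lab G, z.2 1 < p → S₂ z q) →
    ∀ ε η : ℝ≥0∞, (∀ k ∈ U, (ν'.prod (lam G)) {z | ℓ z.1 < a ∧ ¬ S₂ z k⁻¹} ≤ ε) →
    (∀ k ∈ U, ∀ k' ∈ U, (ν'.prod (lam G)) {z | ℓ z.1 < a ∧ ¬ S₂ z (k' * k⁻¹)} ≤ ε) →
    (∀ k ∈ U, ν {y | ¬ S y k} ≤ η) → ν {y | ¬ S y q} ≤ η →
    (ν'.prod (lam G)) {z | ℓ z.1 < a ∧ ¬ S₂ z q} ≤ ENNReal.ofReal ((1 - p ^ (2 * n)) ^ R) +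
      (R * (2 * n) * (2 * n + 2) + 1 : ℕ) * η + (R * (4 * n) : ℕ) * ε

/-- STP2: moves between classes. -/
def Step2Statement : Prop :=
  ∀ (n R : ℕ), 2 ≤ n → ∃ N : ℕ, ∀ (G : Type) [Group G] [Countable G], (∀ x : G, x ^ n = 1) →
    ∀ (Y : Type) [MeasurableSpace Y] [MulAction G Y] (ν : Measure Y) [IsProbabilityMeasure ν]
    (S : Y → G → Prop) (ν' : Measure (Y × Lab G)) (ℓ : Y × Lab G → ℝ) (rep : Y → G → G),
    Sys ν S → IsClab ν S ν' ℓ rep →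
    ∀ S₂ : (Y × Lab G) × Lab G → G → Prop, Sys (ν'.prod (lam G)) S₂ →
    ∀ (a p : ℝ), 0 ≤ a → a ≤ 1 → 0 ≤ p → p ≤ 1 → ∀ (μ : G) (U : Finset G), N ≤ U.card →
    (∀ z : (Y × Lab G) × Lab G, z.2 1 < p → S₂ z μ) →
    ∀ ε η : ℝ≥0∞, (∀ k ∈ U, (ν'.prod (lam G)) {z | ℓ z.1 < a ∧ ¬ S₂ z k⁻¹} ≤ ε) →
    (∀ k ∈ U, ∀ k' ∈ U, (ν'.prod (lam G)) {z | ℓ z.1 < a ∧ ¬ S₂ z (k' * k⁻¹)} ≤ ε) →
    (∀ k ∈ U, ν {y | ¬ S y k} ≤ η) →
    (∀ x ∈ posn μ U n, ∀ x' ∈ posn μ U n,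
      ν {y | ¬ S y (x' * x⁻¹)} ≤ η ∨ ν {y | S y (x' * x⁻¹)} ≤ η) →
    3 * η < 1 → ((posn μ U n).card * (posn μ U n).card : ℕ) * η < 1 →
    (∀ k ∈ U, ∀ k' ∈ U, ∀ j, 2 ≤ j → j ≤ n → ν {y | ¬ S y ((k' * μ) ^ j * ((k * μ) ^ j)⁻¹)} ≤ η →
      (ν'.prod (lam G)) {z | ℓ z.1 < a ∧ ¬ S₂ z ((k' * μ) ^ j * ((k * μ) ^ j)⁻¹)} ≤ ε) →
    (ν'.prod (lam G)) {z | ℓ z.1 < a ∧ ℓ (μ • z.1) < a ∧ ¬ S₂ z μ} ≤
      ENNReal.ofReal ((1 - a ^ (2 * n) * p ^ (2 * n)) ^ R) +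
      ((posn μ U n).card * (posn μ U n).card : ℕ) * η + (R * (4 * n) : ℕ) * ε

/-- LOC: the local part. -/
def LocalStatement : Prop :=
  ∀ (G : Type) [Group G] [Countable G] [Infinite G] (n : ℕ), 2 ≤ n → (∀ x : G, x ^ n = 1) →
    ∀ (d : ℕ) (t : Fin d → G), Subgroup.closure (Set.range t) = ⊤ →
    ∀ (ε : ℝ≥0∞), 0 < ε → ∃ (K : Finset G) (r L : ℕ) (η : ℝ≥0∞), 0 < η ∧
      ∀ (Y : Type) [MeasurableSpace Y] [StandardBorelSpace Y] [MulAction G Y]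
        (ν : Measure Y) [IsProbabilityMeasure ν] (S : Y → G → Prop) (s : Fin r → G),
        Amp ν S K s L η → HasState t ε ε

/-- END: groups of bounded exponent do not have cost larger than one. -/
def EndStatement : Prop :=
  ∀ (G : Type) [Group G], Group.FG G → ∀ n : ℕ, 0 < n → (∀ g : G, g ^ n = 1) →
    ∀ ε : ℝ≥0∞, 0 < ε → ¬ CostGe G (1 + ε)

end Pool.Agent.Lib.MP_90732c_al.Cx
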