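import Pool.Agent.Lib.MP_90732c_al.FdInv
import Pool.Agent.Lib.MP_90732c_al.Cx.Interfaces

/-! WGT: an invariant weight on the classes of a relation which is not dispersed. -/

set_option autoImplicit false

open MeasureTheory
open scoped ENNReal Pointwise

namespace Pool.Agent.Lib.MP_90732c_al.Cx.Wg

open Pool.Agent.Lib.MP_90732c_al.Fd

section Gen

variable {G : Type} [Group G] {Z : Type} {X : Type} [MeasurableSpace X] [MulAction G X]

/-- An invariant random equivalence relation. -/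
structure InvRel (μ : Measure X) (S : X → Setoid (G × Z)) : Prop where
  mp : ∀ g : G, MeasurePreserving (fun x : X => g • x) μ μ
  measS : ∀ a b, MeasurableSet {x | (S x) a b}
  equiS : ∀ (g : G) (x : X) (a b : G × Z), (S (g • x)) (sh g a) (sh g b) ↔ (S x) a b

variable {μ : Measure X} {S : X → Setoid (G × Z)}

lemma InvRel.int_kapx [IsProbabilityMeasure μ] (h : InvRel μ S) (K : Finset (G × Z))
    (g k : G) : Integrable (fun x => kapx S K x g k) μ ∧
      ∫ x, kapx S K x g k ∂μ = kap μ S K g k := by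
  classical
  unfold kapx kap
  have h1 : ∀ u w, Integrable (fun x => if (S x) (sh g u) (sh k w) then (1 : ℝ) else 0) μ ∧
      ∫ x, (if (S x) (sh g u) (sh k w) then (1 : ℝ) else 0) ∂μ =
        μ.real {x | (S x) (sh g u) (sh k w)} := fun u w => int_ite (h.measS _ _)
  constructor
  · exact integrable_finsetSum _ fun u _ => integrable_finsetSum _ fun w _ => (h1 u w).1
  · rw [integral_finsetSum _ fun u _ => integrable_finsetSum _ fun w _ => (h1 u w).1]
    refine Finset.sum_congr rfl fun u _ => ?_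
    rw [integral_finsetSum _ fun w _ => (h1 u w).1]
    exact Finset.sum_congr rfl fun w _ => (h1 u w).2

lemma InvRel.int_bil [IsProbabilityMeasure μ] (h : InvRel μ S) (K : Finset (G × Z))
    (ν ν' : G →₀ ℝ) : Integrable (fun x => bil (kapx S K x) ν ν') μ ∧
      ∫ x, bil (kapx S K x) ν ν' ∂μ = bil (kap μ S K) ν ν' := by
  simp only [bil_apply]
  have h1 : ∀ g k, Integrable (fun x => ν g * (ν' k * kapx S K x g k)) μ := fun g k =>
    ((h.int_kapx K g k).1.const_mul _).const_mul _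
  constructor
  · exact integrable_finsetSum _ fun g _ => integrable_finsetSum _ fun k _ => h1 g k
  · rw [integral_finsetSum _ fun g _ => integrable_finsetSum _ fun k _ => h1 g k]
    refine Finset.sum_congr rfl fun g _ => ?_
    rw [integral_finsetSum _ fun k _ => h1 g k]
    refine Finset.sum_congr rfl fun k _ => ?_
    rw [integral_const_mul, integral_const_mul, (h.int_kapx K g k).2]

lemma InvRel.meas_Fn (h : InvRel μ S) (K : Finset (G × Z)) (v : G × Z) (ν : G →₀ ℝ) :
    Measurable fun x => Fn S K x v ν := by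
  classical
  simp only [Fn_apply]
  refine Finset.measurable_fun_sum _ fun g _ => Measurable.const_mul ?_ _
  unfold cnt
  refine Finset.measurable_fun_sum _ fun u _ => ?_
  exact Measurable.ite (h.measS _ _) measurable_const measurable_const

/-- The key inequality. -/
lemma InvRel.int_Fn_sq [IsProbabilityMeasure μ] (h : InvRel μ S) (K : Finset (G × Z))
    (v : G × Z) (ν : G →₀ ℝ) : Integrable (fun x => (Fn S K x v ν) ^ 2) μ ∧
      ∫ x, (Fn S K x v ν) ^ 2 ∂μ ≤ bil (kap μ S K) ν ν := by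
  have h1 := h.int_bil K ν ν
  have h2 : Integrable (fun x => (Fn S K x v ν) ^ 2) μ := by
    refine h1.1.mono' ((h.meas_Fn K v ν).pow_const 2).aestronglyMeasurable ?_
    refine Filter.Eventually.of_forall fun x => ?_
    rw [Real.norm_eq_abs, abs_of_nonneg (sq_nonneg _)]
    exact Fn_sq_le K x v ν
  refine ⟨h2, ?_⟩
  rw [← h1.2]
  exact integral_mono h2 h1.1 fun x => Fn_sq_le K x v ν

lemma InvRel.kap_equi (h : InvRel μ S) (K : Finset (G × Z)) (k g g' : G) :
    kap μ S K (k * g) (k * g') = kap μ S K g g' := by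
  unfold kap
  refine Finset.sum_congr rfl fun u _ => Finset.sum_congr rfl fun w _ => ?_
  rw [Measure.real, ← (h.mp k).measure_preimage (h.measS _ _).nullMeasurableSet]
  congr 2
  ext x
  simp only [Set.mem_preimage, Set.mem_ofPred_eq]
  have h1 := h.equiS k x (sh g u) (sh g' w)
  rw [sh_mul, sh_mul] at h1
  exact h1

lemma InvRel.Fn_equi (h : InvRel μ S) (K : Finset (G × Z)) (k : G) (x : X) (v : G × Z)
    (ν : G →₀ ℝ) : Fn S K (k • x) (sh k v) ν = Fn S K x v (Fd.Lt k⁻¹ ν) := by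
  classical
  unfold Fn Fd.Lt
  rw [Finsupp.linearCombination_mapDomain]
  congr 2
  funext g
  simp only [Function.comp_apply]
  unfold cnt
  refine Finset.sum_congr rfl fun u _ => ?_
  have h1 := h.equiS k x (sh (k⁻¹ * g) u) v
  rw [sh_mul, mul_inv_cancel_left] at h1
  by_cases h2 : (S x) (sh (k⁻¹ * g) u) v
  · rw [if_pos h2, if_pos (h1.2 h2)]
  · rw [if_neg h2, if_neg (fun h3 => h2 (h1.1 h3))]

/-- Lower bound for the total mass. -/
lemma InvRel.int_sum_Fn [IsProbabilityMeasure μ] (h : InvRel μ S) (K : Finset (G × Z))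
    {ε : ℝ} (hK : ∀ g : G, ε ≤ kap μ S K g 1) {ν : G →₀ ℝ} (hν : ν ∈ Pv G) :
    ε ≤ ∫ x, ∑ w ∈ K, Fn S K x w ν ∂μ := by
  classical
  have h1 : ∀ x, ∑ w ∈ K, Fn S K x w ν = ∑ g ∈ ν.support, ν g * kapx S K x g 1 := by
    intro x
    simp only [Fn_apply]
    rw [Finset.sum_comm]
    refine Finset.sum_congr rfl fun g _ => ?_
    rw [← Finset.mul_sum]
    unfold cnt kapx
    rw [Finset.sum_comm]
    simp only [sh_one]
  simp only [h1]
  rw [integral_finsetSum _ fun g _ => ((h.int_kapx K g 1).1.const_mul _)]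
  have h2 : ∑ g ∈ ν.support, ν g = 1 := by
    have h3 := hν.2
    rw [Finsupp.linearCombination_apply, Finsupp.sum] at h3
    simpa using h3
  calc ε = ∑ g ∈ ν.support, ν g * ε := by rw [← Finset.sum_mul, h2, one_mul]
    _ ≤ ∑ g ∈ ν.support, ∫ x, ν g * kapx S K x g 1 ∂μ := by
        refine Finset.sum_le_sum fun g _ => ?_
        rw [integral_const_mul, (h.int_kapx K g 1).2]
        exact mul_le_mul_of_nonneg_left (hK g) (hν.1 g)

/-- **The invariant function.** -/
theorem InvRel.exists_inv [IsProbabilityMeasure μ] [Countable G] [Countable Z]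
    (h : InvRel μ S) (K : Finset (G × Z)) {ε : ℝ} (hε : 0 < ε)
    (hK : ∀ g : G, ε ≤ kap μ S K g 1) :
    ∃ f : G × Z → X → ℝ, (∀ v, Measurable (f v)) ∧
      (∀ᵐ x ∂μ, (∀ v w, (S x) v w → f v x = f w x) ∧
        (∀ s : Finset (G × Z), (∀ v ∈ s, ∀ w ∈ s, (S x) v w → v = w) →
          ∑ v ∈ s, f v x ≤ K.card) ∧
        (∀ (k : G) (v : G × Z), f (sh k v) (k • x) = f v x)) ∧
      ∃ w, 0 < ∫ x, f w x ∂μ := by
  classical
  set B := bil (kap μ S K) with hB
  have hsym : ∀ u v, B u v = B v u := bil_symm (kap_symm K)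
  obtain ⟨z, hz⟩ : ∃ z : G × Z, z ∈ K := by
    by_contra hcon
    push Not at hcon
    have h1 : K = ∅ := Finset.eq_empty_of_forall_notMem hcon
    have h2 := hK 1
    rw [h1] at h2
    unfold kap at h2
    simp only [Finset.sum_empty] at h2
    linarith
  have hpos : ∀ v, 0 ≤ B v v := fun v =>
    (integral_nonneg fun x => sq_nonneg _).trans (h.int_Fn_sq K z v).2
  have hδ : ∀ n : ℕ, (0 : ℝ) < (1 / 4) ^ n / 4 := fun n => by positivity
  choose ν hν1 hν2 hν3 using fun n => exists_min B hsym hpos (Pv G) Pv_mid Pv_nonempty (hδ n)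
  -- differences
  have hdiff : ∀ n, B (ν n - ν (n + 1)) (ν n - ν (n + 1)) ≤ (1 / 4 : ℝ) ^ n := by
    intro n
    have h1 := hν3 n (ν (n + 1)) (hν1 (n + 1)) (by
      intro w hw
      have h2 := hν2 (n + 1) w hw
      have h3 : (1 / 4 : ℝ) ^ (n + 1) / 4 ≤ (1 / 4) ^ n / 4 := by
        rw [pow_succ]
        have : (0 : ℝ) < (1 / 4) ^ n := by positivity
        linarith
      linarith)
    linarith
  have hshift : ∀ (k : G) n, B (ν n - Fd.Lt k (ν n)) (ν n - Fd.Lt k (ν n)) ≤ (1 / 4 : ℝ) ^ n := by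
    intro k n
    have h1 := hν3 n (Fd.Lt k (ν n)) (Pv_Lt (hν1 n) k) (by
      intro w hw
      rw [hB, bil_Lt k (h.kap_equi K k)]
      exact hν2 n w hw)
    linarith
  have hsumm : ∀ v, ∀ᵐ x ∂μ, Summable fun n => |Fn S K x v (ν n - ν (n + 1))| := by
    intro v
    exact ae_summable (fun n x => Fn S K x v (ν n - ν (n + 1))) (fun n => h.meas_Fn K v _)
      (fun n => (h.int_Fn_sq K v _).1) (fun n => (h.int_Fn_sq K v _).2.trans (hdiff n))
  have hsumm' : ∀ (k : G) v, ∀ᵐ x ∂μ, Summable fun n => |Fn S K x v (ν n - Fd.Lt k (ν n))| := by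
    intro k v
    exact ae_summable (fun n x => Fn S K x v (ν n - Fd.Lt k (ν n))) (fun n => h.meas_Fn K v _)
      (fun n => (h.int_Fn_sq K v _).1) (fun n => (h.int_Fn_sq K v _).2.trans (hshift k n))
  have hlim : ∀ v, ∃ f : X → ℝ, Measurable f ∧
      ∀ᵐ x ∂μ, Filter.Tendsto (fun n => Fn S K x v (ν n)) Filter.atTop (nhds (f x)) := by
    intro v
    apply measurable_limit_of_tendsto_metrizable_ae
    · exact fun n => (h.meas_Fn K v _).aemeasurable
    · filter_upwards [hsumm v] with x hx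
      apply cauchySeq_tendsto_of_complete
      apply cauchySeq_of_summable_dist
      refine hx.congr fun n => ?_
      rw [Real.dist_eq, map_sub]
  choose f hf1 hf2 using hlim
  have hall : ∀ᵐ x ∂μ, ∀ v, Filter.Tendsto (fun n => Fn S K x v (ν n)) Filter.atTop
      (nhds (f v x)) := ae_all_iff.2 hf2
  have hequi : ∀ᵐ x ∂μ, ∀ (k : G) (v : G × Z), f (sh k v) (k • x) = f v x := by
    rw [ae_all_iff]
    intro k
    rw [ae_all_iff]
    intro v
    have h1 : ∀ᵐ x ∂μ, Filter.Tendsto (fun n => Fn S K (k • x) (sh k v) (ν n)) Filter.atTop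
        (nhds (f (sh k v) (k • x))) := (h.mp k).quasiMeasurePreserving.ae (hf2 (sh k v))
    filter_upwards [h1, hf2 v, hsumm' k⁻¹ v] with x h2 h3 h4
    have h5 : Filter.Tendsto (fun n => Fn S K x v (ν n - Fd.Lt k⁻¹ (ν n))) Filter.atTop (nhds 0) :=
      (tendsto_zero_iff_abs_tendsto_zero _).2 h4.tendsto_atTop_zero
    have h6 := h3.sub h5
    rw [sub_zero] at h6
    refine tendsto_nhds_unique h2 (h6.congr fun n => ?_)
    rw [h.Fn_equi, map_sub]
    ring
  refine ⟨f, hf1, ?_, ?_⟩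
  · filter_upwards [hall, hequi] with x hx1 hx2
    refine ⟨fun v w hvw => ?_, fun s hs => ?_, hx2⟩
    · refine tendsto_nhds_unique (hx1 v) ((hx1 w).congr fun n => ?_)
      rw [Fn_congr K x hvw]
    · have h1 : Filter.Tendsto (fun n => ∑ v ∈ s, Fn S K x v (ν n)) Filter.atTop
          (nhds (∑ v ∈ s, f v x)) := tendsto_finsetSum _ fun v _ => hx1 v
      exact le_of_tendsto' h1 fun n => sum_Fn_le K x (hν1 n) s hs
  · -- nontriviality
    have hbd : ∀ n x, ‖∑ w ∈ K, Fn S K x w (ν n)‖ ≤ K.card * K.card := by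
      intro n x
      rw [Real.norm_eq_abs, abs_of_nonneg (Finset.sum_nonneg fun w _ => Fn_nonneg K x w (hν1 n))]
      rw [← nsmul_eq_mul]
      exact Finset.sum_le_card_nsmul _ _ _ fun w _ => Fn_le K x w (hν1 n)
    have h1 : Filter.Tendsto (fun n => ∫ x, ∑ w ∈ K, Fn S K x w (ν n) ∂μ) Filter.atTop
        (nhds (∫ x, ∑ w ∈ K, f w x ∂μ)) := by
      apply tendsto_integral_of_dominated_convergence (fun _ => (K.card : ℝ) * K.card)
      · intro n
        exact (Finset.measurable_fun_sum _ fun w _ => h.meas_Fn K w _).aestronglyMeasurable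
      · exact integrable_const _
      · intro n
        exact Filter.Eventually.of_forall (hbd n)
      · filter_upwards [hall] with x hx
        exact tendsto_finsetSum _ fun w _ => hx w
    have h2 : ε ≤ ∫ x, ∑ w ∈ K, f w x ∂μ := ge_of_tendsto' h1 fun n => h.int_sum_Fn K hK (hν1 n)
    have hfi : ∀ w, Integrable (f w) μ := by
      intro w
      refine (integrable_const (K.card : ℝ)).mono' (hf1 w).aestronglyMeasurable ?_
      filter_upwards [hall] with x hx
      rw [Real.norm_eq_abs]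
      refine le_of_tendsto' ((hx w).abs) fun n => ?_
      rw [abs_of_nonneg (Fn_nonneg K x w (hν1 n))]
      exact Fn_le K x w (hν1 n)
    rw [integral_finsetSum _ fun w _ => hfi w] at h2
    by_contra hcon
    push Not at hcon
    have h3 : ∑ w ∈ K, ∫ x, f w x ∂μ ≤ 0 := Finset.sum_nonpos fun w _ => hcon w
    linarith

end Gen

end Pool.Agent.Lib.MP_90732c_al.Cx.Wg

namespace Pool.Agent.Lib.MP_90732c_al.Cx

open Pool.Agent.Lib.MP_90732c_al.Ab
open Pool.Agent.Lib.MP_90732c_al.Fd (sh sh_mul sh_one kap)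

section

variable {G : Type} [Group G] {Y : Type} [MulAction G Y]

/-- The equivalence relation on the positions: the position `g` is the point `g⁻¹ • y`. -/
def posRel {S : Y → G → Prop} (h : IsRel S) (y : Y) : Setoid (G × Unit) where
  r a b := S (a.1⁻¹ • y) (b.1⁻¹ * a.1)
  iseqv := by
    refine ⟨fun a => ?_, fun {a b} hab => ?_, fun {a b c} hab hbc => ?_⟩
    · rw [inv_mul_cancel]
      exact h.one _
    · have h1 := h.inv _ _ hab
      rw [smul_smul, mul_assoc, mul_inv_cancel, mul_one, mul_inv_rev, inv_inv] at h1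
      exact h1
    · have h1 : S ((b.1⁻¹ * a.1) • a.1⁻¹ • y) (c.1⁻¹ * b.1) := by
        rw [smul_smul, mul_assoc, mul_inv_cancel, mul_one]
        exact hbc
      have h2 := h.mul _ _ _ hab h1
      rw [mul_assoc, mul_inv_cancel_left] at h2
      exact h2

lemma posRel_iff {S : Y → G → Prop} (h : IsRel S) (y : Y) (a b : G × Unit) :
    (posRel h y) a b ↔ S (a.1⁻¹ • y) (b.1⁻¹ * a.1) := Iff.rfl

end

/-- WGT. -/
theorem wgt : WgtStatement := by
  classical
  intro G _ _ Y _ _ ν _ S hS hnd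
  have hI : Wg.InvRel (Z := Unit) ν (posRel hS.rel) := by
    refine ⟨hS.mp, fun a b => ?_, fun g x a b => ?_⟩
    · have h1 : {x | (posRel hS.rel x) a b} =
          (fun y : Y => a.1⁻¹ • y) ⁻¹' {y | S y (b.1⁻¹ * a.1)} := by
        ext x
        exact Iff.rfl
      rw [h1]
      exact (hS.mp _).measurable (hS.meas _)
    · rw [posRel_iff, posRel_iff]
      have h1 : (sh g a).1⁻¹ • g • x = a.1⁻¹ • x := by
        change (g * a.1)⁻¹ • g • x = _
        rw [smul_smul, mul_inv_rev, mul_assoc, inv_mul_cancel, mul_one]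
      have h2 : (sh g b).1⁻¹ * (sh g a).1 = b.1⁻¹ * a.1 := by
        change (g * b.1)⁻¹ * (g * a.1) = _
        rw [mul_inv_rev, mul_assoc, inv_mul_cancel_left]
      rw [h1, h2]
  unfold Dispersed at hnd
  push Not at hnd
  obtain ⟨K₀, e, he, hK₀⟩ := hnd
  set K : Finset (G × Unit) := (insert 1 K₀).image fun g => (g, ()) with hKdef
  have heT : e ≠ ⊤ := by
    obtain ⟨x, _, hx⟩ := hK₀ 1
    exact ((hx.trans_le prob_le_one).trans ENNReal.one_lt_top).ne
  have hε : 0 < e.toReal := ENNReal.toReal_pos he.ne' heT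
  have hK : ∀ g : G, e.toReal ≤ kap ν (posRel hS.rel) K g 1 := by
    intro g
    obtain ⟨x, hx, hx2⟩ := hK₀ g
    have hxK : (x, ()) ∈ K := Finset.mem_image_of_mem _ (Finset.mem_insert_of_mem hx)
    have h1K : ((1 : G), ()) ∈ K := Finset.mem_image_of_mem _ (Finset.mem_insert_self _ _)
    have h1 : ν {y | (posRel hS.rel y) (sh g (x, ())) (sh 1 ((1 : G), ()))} = ν {y | S y (g * x)} := by
      have h2 : {y | (posRel hS.rel y) (sh g (x, ())) (sh 1 ((1 : G), ()))} =
          (fun y : Y => (g * x)⁻¹ • y) ⁻¹' {y | S y (g * x)} := by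
        ext y
        rw [Set.mem_preimage]
        change (posRel hS.rel y) (sh g (x, ())) (sh 1 ((1 : G), ())) ↔ S ((g * x)⁻¹ • y) (g * x)
        rw [posRel_iff, sh_one]
        change S ((g * x)⁻¹ • y) ((1 : G)⁻¹ * (g * x)) ↔ _
        rw [inv_one, one_mul]
      rw [h2, (hS.mp _).measure_preimage (hS.meas _).nullMeasurableSet]
    have h3 : e.toReal ≤ ν.real {y | (posRel hS.rel y) (sh g (x, ())) (sh 1 ((1 : G), ()))} := by
      rw [Measure.real, h1]
      exact ENNReal.toReal_mono (measure_ne_top _ _) hx2.le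
    refine h3.trans ?_
    unfold kap
    refine le_trans ?_ (Finset.single_le_sum (f := fun u => ∑ w ∈ K,
      ν.real {y | (posRel hS.rel y) (sh g u) (sh 1 w)}) (fun _ _ => Finset.sum_nonneg fun _ _ =>
        measureReal_nonneg) hxK)
    exact Finset.single_le_sum (f := fun w => ν.real {y | (posRel hS.rel y) (sh g (x, ())) (sh 1 w)})
      (fun _ _ => measureReal_nonneg) h1K
  obtain ⟨f, hf1, hf2, ⟨w₀, hw₀⟩⟩ := hI.exists_inv K hε hK
  have hval : ∀ᵐ y ∂ν, ∀ g : G, f (1, ()) (g • y) = f (g⁻¹, ()) y := by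
    filter_upwards [hf2] with y hy g
    have h1 := hy.2.2 g (g⁻¹, ())
    have h2 : sh g (g⁻¹, ()) = ((1 : G), ()) := by
      change (g * g⁻¹, ()) = _
      rw [mul_inv_cancel]
    rwa [h2] at h1
  refine ⟨f (1, ()), K.card, hf1 _, ?_, ?_, ?_⟩
  · filter_upwards [hf2, hval] with y hy hy2 g hg
    rw [hy2 g]
    refine (hy.1 (1, ()) (g⁻¹, ()) ?_).symm
    rw [posRel_iff]
    change S ((1 : G)⁻¹ • y) (g⁻¹⁻¹ * 1)
    rw [inv_one, one_smul, inv_inv, mul_one]
    exact hg
  · filter_upwards [hf2, hval] with y hy hy2 s hs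
    have h1 : ∑ x ∈ s, f (1, ()) (x • y) = ∑ v ∈ s.image fun x => ((x⁻¹, ()) : G × Unit), f v y := by
      rw [Finset.sum_image]
      · exact Finset.sum_congr rfl fun x _ => hy2 x
      · intro a _ b _ hab
        have := congrArg Prod.fst hab
        exact inv_injective this
    rw [h1]
    refine hy.2.1 _ ?_
    intro v hv w hw hvw
    obtain ⟨x, hx, rfl⟩ := Finset.mem_image.1 hv
    obtain ⟨x', hx', rfl⟩ := Finset.mem_image.1 hw
    rw [hs x hx x' hx' ?_]
    rw [posRel_iff] at hvw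
    change S (x⁻¹⁻¹ • y) (x'⁻¹⁻¹ * x⁻¹) at hvw
    rw [inv_inv, inv_inv] at hvw
    exact hvw
  · have h1 : ∫ y, f w₀ y ∂ν = ∫ y, f (1, ()) (w₀.1⁻¹ • y) ∂ν := by
      refine integral_congr_ae ?_
      filter_upwards [hval] with y hy
      rw [hy, inv_inv]
    have h2 : ∫ y, f (1, ()) (w₀.1⁻¹ • y) ∂ν = ∫ y, f (1, ()) y ∂ν := by
      have h3 := (hS.mp w₀.1⁻¹)
      calc ∫ y, f (1, ()) (w₀.1⁻¹ • y) ∂ν = ∫ y, f (1, ()) y ∂(ν.map fun y => w₀.1⁻¹ • y) :=
            (integral_map h3.measurable.aemeasurable (hf1 _).aestronglyMeasurable).symm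
        _ = ∫ y, f (1, ()) y ∂ν := by rw [h3.map_eq]
    rw [← h2, ← h1]
    exact hw₀

end Pool.Agent.Lib.MP_90732c_al.Cx
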