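import Pool.Agent.Lib.MP_90732c_al.Ab.END
import Pool.Agent.Lib.MP_90732c_al.Cx.Seq
import Pool.Agent.Lib.MP_90732c_al.Cx.DstmP
import Pool.Agent.Lib.MP_90732c_al.Cx.Cut
import Pool.Agent.Lib.MP_90732c_al.Cx.Clfst
import Pool.Agent.Lib.MP_90732c_al.Cx.Col
import Pool.Agent.Lib.MP_90732c_al.Cx.Few
import Pool.Agent.Lib.MP_90732c_al.Cx.Wgt
import Pool.Agent.Lib.MP_90732c_al.Cx.Hsf
import Pool.Agent.Lib.MP_90732c_al.Cx.P2.COIN
import Pool.Agent.Lib.MP_90732c_al.Cx.P2.WALLS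
import Pool.Agent.Lib.MP_90732c_al.Cx.P2.OPT
import Pool.Agent.Lib.MP_90732c_al.Cx.P2.BASE
import Pool.Agent.Lib.MP_90732c_al.Cx.P2.ATT
import Pool.Agent.Lib.MP_90732c_al.Cx.P2.ADDJ
import Pool.Agent.Lib.MP_90732c_al.Cx.P2.Germ
import Pool.Agent.Lib.MP_90732c_al.Cx.P2.WALK
import Pool.Agent.Lib.MP_90732c_al.Cx.P2.SPR
import Pool.Agent.Lib.MP_90732c_al.Cx.P2.P2
import Pool.Agent.Lib.MP_90732c_al.Cx.P2.LawL
import Pool.Agent.Lib.MP_90732c_al.Cx.P2.ADDI
import Pool.Agent.Lib.MP_90732c_al.Cx.H53.CstB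
import Pool.Agent.Lib.MP_90732c_al.Cx.H31.Adapt
import Pool.Agent.Lib.MP_90732c_al.Cx.H96.Clab
import Pool.Agent.Lib.MP_90732c_al.Cx.H96.Mix

/-! An absolute bound for the Tarski numbers of all finitely generated groups of cost greater than
one. -/

set_option autoImplicit false

open MeasureTheory
open scoped ENNReal

namespace Pool.Agent.Lib.MP_90732c_al.Cx

/-- Finitely generated groups of cost greater than one are not of bounded exponent. -/
theorem not_exponent {G : Type} [Group G] (hfg : Group.FG G) {ε : ℝ≥0∞} (hε : 0 < ε)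
    (hc : CostGe G (1 + ε)) : ¬ ∃ n : ℕ, 0 < n ∧ ∀ g : G, g ^ n = 1 := by
  rintro ⟨n, hn, hexp⟩
  have : Countable G := countable_of_fg hfg
  obtain ⟨δ, hδ, hc'⟩ := hc.real hε
  obtain ⟨T, hgen⟩ := Group.fg_def.1 hfg
  have hinf : Infinite G := infinite_of_cost hc' (by linarith) T hgen
  have h1 : DstmStatement := dstm H96.clab cut H96.mix (few wgt) (hsf H31.par') col clfst
  have h2 : HasSeq G T := hasSeq_of_cost h1 (by linarith) hc' T hgen
  have h3 : HasWalls G := walls coin G T hgen h2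
  have h4 : Part2Statement := P2.part2 opt (base H53.cst) (att2 H53.cst)
    (addI H53.cst (spr walk))
    (addJ H53.cst (spr walk)) (germ lawL)
  exact h4 G hfg n hn hexp h3 ε hε hc

/-- **The absolute bound for all finitely generated groups of cost greater than one.** -/
theorem tarskiLe_all {G : Type} [Group G] (hfg : Group.FG G) {ε : ℝ≥0∞} (hε : 0 < ε)
    (hc : CostGe G (1 + ε)) : TarskiLe G (2 * 4 ^ 6000) :=
  Ab.tarskiLe_absolute hfg (not_exponent hfg hε hc) hε hc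

end Pool.Agent.Lib.MP_90732c_al.Cx
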